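import Pool.Agent.Helper97.Tate.Defs

/-!
PROJECT FEWPOINTS (MP_d3128a_ag, SHGH), captain helper97. The goals, with complete proofs in the
docstrings. Everything is formal: `k` is a field, `q` a variable, `OO k = k⟦q⟧`, `KK k = k((q))`,
`SS k` = power series in `q` with coefficients in the Laurent polynomials `k[T, 1/T]`.
`cf f N n` is the coefficient of `q^N T^n`. Deliver `Pool/Agent/<Seat>/Tate/XX.lean`, namespace
`Pool.Agent.<Seat>.Tate.XX`, `theorem t (h1 : S_AA) ... : S_XX` where the hypotheses allowed are the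
goals named in the docstring (other goals may be used as hypotheses too if you need them, tell me).
-/

set_option autoImplicit false

noncomputable section

namespace Pool.Agent.Helper97.Tate

open Module

/-! ### Part 1: formal theta functions -/

/-- CFM (0.8 h). Product formula for the coefficients.
PROOF. If `N < 0` then every term has `p.1 < 0` or `N - p.1 < 0`, so both sides vanish. Let `N ≥ 0`.
`coeff N (f g) = ∑_{i + j = N} coeff i f * coeff j g`, and the coefficient at `n` of the product of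
two Laurent polynomials `u v` is `∑_a u_a v_{n-a}` (a finite sum over the support of `u`). A term
`p = (p.1, a)` is nonzero only if `0 ≤ p.1 ≤ N` and `a ∈ supp (coeff p.1 f)`: a finite set. -/
def S_CFM : Prop := ∀ (k : Type) [Field k] (f g : SS k) (N n : ℤ),
  {p : ℤ × ℤ | cf f p.1 p.2 * cf g (N - p.1) (n - p.2) ≠ 0}.Finite ∧
    cf (f * g) N n = ∑ᶠ p : ℤ × ℤ, cf f p.1 p.2 * cf g (N - p.1) (n - p.2)

/-- MUL (0.6 h, hypothesis S_CFM). Products of theta functions.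
PROOF. By CFM `cf (f g) N (n + κ + κ')` is the sum over `p` of
`cf f p.1 p.2 * cf g (N - p.1) (n + κ + κ' - p.2)`. Substitute `p.2 = a + κ`, `p.1 = N' + a`
(a bijection `(N', a) ↦ (N' + a, a + κ)` of `ℤ × ℤ`; `finsum_comp_equiv` or
`finsum_eq_of_bijective`): the first factor is `cf f (N' + a) (a + κ) = c * cf f N' a`, the second
one `cf g (N - N' - a) ((n - a) + κ') = c' * cf g (N - N' - a - (n - a)) (n - a)
= c' * cf g ((N - n) - N') (n - a)`. Hence the sum is `c c' * cf (f g) (N - n) n` by CFM. For `1`: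
`cf 1 N n = 1` if `N = n = 0` and `0` otherwise. -/
def S_MUL : Prop := ∀ (k : Type) [Field k],
  IsTh 0 (1 : k) (1 : SS k) ∧ ∀ (κ κ' : ℕ) (c c' : k) (f g : SS k), IsTh κ c f → IsTh κ' c' g →
    IsTh (κ + κ') (c * c') (f * g)

/-- LIN (0.4 h). Theta functions form an `OO k`-module.
PROOF. `cf (f + g) = cf f + cf g`; `coeff N (iO a * f) = ∑_{i+j=N} C (a_i) * coeff j f`, hence
`cf (iO a * f) N n = ∑_{i ≤ N} a_i cf f (N - i) n` for `N ≥ 0` (and the same sum over any larger range,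
since `cf` vanishes for negative first argument), so the equation `cf f (N - i) (n + κ) =
c * cf f (N - i - n) n` can be summed. -/
def S_LIN : Prop := ∀ (k : Type) [Field k] (κ : ℕ) (c : k),
  IsTh κ c (0 : SS k) ∧ (∀ f g : SS k, IsTh κ c f → IsTh κ c g → IsTh κ c (f + g)) ∧
    (∀ f : SS k, IsTh κ c f → IsTh κ c (-f)) ∧
    ∀ (a : OO k) (f : SS k), IsTh κ c f → IsTh κ c (iO a * f)

/-- THC (1 h). The standard theta functions.
PROOF. `qe κ r l = r l + κ l (l - 1) / 2` (`l (l - 1)` is even). It is `≥ 0` and `> N` unless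
`-N ≤ l ≤ N + 1`: for `l ≥ 1` it is `≥ l (l - 1) / 2 ≥ l - 1`; for `l = -t < 0` it is
`t (κ (t + 1) / 2 - r) ≥ t` because `r ≤ κ - 1` gives `κ (t + 1) / 2 - r ≥ κ (t - 1) / 2 + 1 ≥ 1`. So
the range `Icc (-N) (N + 1)` contains all `l` with `qe κ r l = N`, and the coefficient of `T ^ n` in
`coeff N (Th κ r c)` is `∑_{l : qe κ r l = N, r + κ l = n} c ^ l`: only `l = (n - r) / κ` is possible.
(b): `qe κ r (l + 1) = qe κ r l + (r + κ l)`: with `n = r + κ l` the coefficient at `(N, n + κ)` is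
`c ^ (l + 1)` iff `qe κ r (l + 1) = N` iff `qe κ r l = N - n`; (for `κ ∤ n - r` both sides vanish).
(c): `N = 0`: `qe κ r l = 0` iff `l = 0` or (`l = 1` and `r = 0`): for `l ≥ 2` and for `l < 0` it is
positive, and `qe κ r 1 = r`. -/
def S_THC : Prop := ∀ (k : Type) [Field k] (κ : ℕ) (r : ℤ) (c : k), c ≠ 0 → 0 ≤ r → r < κ →
  (∀ N n : ℤ, cf (Th κ r c) N n =
    if (κ : ℤ) ∣ n - r ∧ qe κ r ((n - r) / κ) = N then c ^ ((n - r) / κ) else 0) ∧
  IsTh κ c (Th κ r c) ∧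
  PowerSeries.constantCoeff (Th κ r c) =
    if r = 0 then 1 + LaurentPolynomial.C c * LaurentPolynomial.T (κ : ℤ)
    else LaurentPolynomial.T r

/-- BAS (0.9 h, hypotheses S_LIN, S_THC). The standard theta functions are a basis.
PROOF. First the second clause: `ser` is `OO k`-linear in the sense `ser (iO a * f) n = a * ser f n`,
and `ser (Th κ r c) r' = 1` if `r = r'` and `0` if `r ≠ r'` (`0 ≤ r, r' < κ`) by THC (`qe κ r 0 = 0`).
First clause: `g = f - ∑ iO (ser f r) * Th κ r c` is a theta function with `cf g N r = 0` for all `N` and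
`0 ≤ r < κ`. By `cf g N (n + κ) = c * cf g (N - n) n` and (`c ≠ 0`) `cf g N n = c⁻¹ * cf g (N + n) (n + κ)`
induction gives `cf g N (r + κ l) = 0` for all `l ∈ ℤ`, so `g = 0`. -/
def S_BAS : Prop := ∀ (k : Type) [Field k] (κ : ℕ) (c : k), 1 ≤ κ → c ≠ 0 →
  (∀ f : SS k, IsTh κ c f → f = ∑ r : Fin κ, iO (ser f ((r : ℕ) : ℤ)) * Th κ ((r : ℕ) : ℤ) c) ∧
  ∀ (a : Fin κ → OO k) (r' : Fin κ),
    ser (∑ r : Fin κ, iO (a r) * Th κ ((r : ℕ) : ℤ) c) ((r' : ℕ) : ℤ) = a r'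

/-- EVC (0.7 h). The coefficients of the evaluation.
PROOF. `evR x (C a * T n) = C a * (x (1 + s)) ^ n` (`LaurentPolynomial.eval₂_C_mul_T`), and
`(1 + s) ^ n = ∑_α C(n, α) s ^ α` for `n ∈ ℤ` (`PowerSeries.binomialSeries`, `binomialSeries_add`,
`binomialSeries_nat`: the unit `(1 + s)^n` has value `binomialSeries k (n : ℤ)`, prove it for `n : ℕ` and
for `-n` by the product). Sum over the support. The second clause is immediate from the definitions
of `evx`, `sw`. -/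
def S_EVC : Prop := ∀ (k : Type) [Field k] (x : kˣ) (f : SS k) (N α : ℕ),
  PowerSeries.coeff N (PowerSeries.coeff α (evx x f)) =
    (PowerSeries.coeff N f).coeff.sum
      (fun n a => a * (((x ^ n : kˣ) : k) * ((Ring.choose n α : ℤ) : k))) ∧
  PowerSeries.coeff α (evK x f) = algebraMap (OO k) (KK k) (PowerSeries.coeff α (evx x f)) ∧
  ∀ a : OO k, evK x (iO a) = PowerSeries.C (algebraMap (OO k) (KK k) a)

/-- EVI (0.8 h). The evaluation is injective.
PROOF. `algebraMap (OO k) (KK k)` is injective, so `evx x f = 0`, hence `evR x (coeff N f) = 0` for all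
`N` (definition of `evx`, `sw`). It remains to see that `evR x` is injective: let `u` be a Laurent
polynomial with `evR x u = 0`; multiply by `T ^ M` (which goes to a unit) to get a polynomial `p` with
`p (x (1 + s)) = 0` in `k⟦s⟧`. The polynomial `p (x (1 + s)) ∈ k[s]` is then `0` (`k[s] → k⟦s⟧` is
injective), and `p ↦ p (x (1 + s))` is an injective (`x ≠ 0`) substitution. -/
def S_EVI : Prop := ∀ (k : Type) [Field k] (x : kˣ) (f : SS k), evK x f = 0 → f = 0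

/-- EVU (0.6 h, hypotheses S_BAS, S_EVC, S_EVI). Uniqueness over the field.
PROOF. Multiply by a common denominator `δ ≠ 0` in `OO k` of the `v r` (`IsLocalization.exist_integer_multiples`
or a product): `δ v r = a r ∈ OO k`. Then `evK x (∑ iO (a r) * Th κ r c) = 0` by EVC, so
`∑ iO (a r) * Th κ r c = 0` by EVI and `a = 0` by BAS (second clause; `ser 0 = 0`). -/
def S_EVU : Prop := ∀ (k : Type) [Field k] (x : kˣ) (κ : ℕ) (c : k), 1 ≤ κ → c ≠ 0 →
  ∀ v : Fin κ → KK k, ∑ r : Fin κ, PowerSeries.C (v r) * evK x (Th κ ((r : ℕ) : ℤ) c) = 0 → v = 0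

/-- THZ (1 h, hypotheses S_THC, S_EVC). Zeros of the theta functions.
PROOF. Let `th w = Th 1 0 (-1/w)`; the coefficient of `q^N` is the sum over the `l` with
`l (l - 1) / 2 = N` of `(-1/w)^l T^l`. At `T = w` (coefficient `α = 0` of `evK`): the sum of `(-1)^l` over
these `l`; they come in pairs `l, 1 - l` with opposite signs, so it is `0` for every `N`.
Coefficient `α = 1` of `evx w (th w)`: its `q^0` part is (from `constantCoeff (th w) = 1 - T / w`)
`-1`, so it is a nonzero element of `OO k`, nonzero in `KK k`. For `x ≠ w` the `q^0` part of the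
constant coefficient is `1 - x / w ≠ 0`. Last clause: the `q^0` part of the constant coefficient of
`evx x (Th κ 1 c)` is `x` (`κ ≥ 2`). -/
def S_THZ : Prop := ∀ (k : Type) [Field k] (w x : kˣ),
  PowerSeries.constantCoeff (evK w (th w)) = 0 ∧ PowerSeries.coeff 1 (evK w (th w)) ≠ 0 ∧
  (x ≠ w → PowerSeries.constantCoeff (evK x (th w)) ≠ 0) ∧
  ∀ (κ : ℕ) (c : k), 2 ≤ κ → c ≠ 0 → PowerSeries.constantCoeff (evK x (Th κ 1 c)) ≠ 0

/-- DIV (2 h, hypotheses S_MUL, S_LIN, S_THC, S_BAS, S_EVC, S_THZ). Division of a theta function of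
degree `κ + 1 ≥ 2` vanishing at `w` by `th w`.
PROOF. `SS k` is a domain (`LaurentPolynomial k` is one). For `a ∈ (OO k)^κ` the product
`th w * ∑_{r < κ} iO (a r) * Th κ r (-w c)` is a theta function of degree `κ + 1` and multiplier
`(-1/w) (-w c) = c` (MUL), so it equals `∑_{r ≤ κ} iO ((M a) r) * Th (κ + 1) r c` with an `OO k`-linear
`M` (BAS); `M` is injective (domain, BAS). Let `e r = constantCoeff (evx w (Th (κ + 1) r c)) ∈ OO k`;
`e 1 ≠ 0` by THZ; `∑ e r (M a) r = 0` because `constantCoeff (evx w (th w)) = 0`. Over the field `KK k`: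
the extension `M_K : K^κ → K^(κ+1)` is injective (clear denominators) with image in the kernel of the
nonzero functional `e_K`, of dimension `κ`; so the image is this kernel. For
`f = ∑ iO (b r) * Th (κ + 1) r c` with `∑ e r b r = 0` there is `a' ∈ K^κ` with `M_K a' = b`; choose
`δ ≠ 0` in `OO k` with `δ a' ∈ (OO k)^κ`; `δ = q^N * unit` (`OO k` is a discrete valuation ring), so
`q^N a' = a ∈ (OO k)^κ`, `M a = q^N b` and `q^N f = th w * ∑ iO (a r) * Th κ r (-w c)`. -/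
def S_DIV : Prop := ∀ (k : Type) [Field k] (w : kˣ) (κ : ℕ) (c : k) (f : SS k), 1 ≤ κ → c ≠ 0 →
  IsTh (κ + 1) c f → PowerSeries.constantCoeff (evK w f) = 0 →
  ∃ (N : ℕ) (h : SS k), IsTh κ (-(w : k) * c) h ∧ PowerSeries.X ^ N * f = th w * h

/-- DVM (1 h, hypotheses S_DIV, S_THZ). Several zeros.
PROOF. Induction on `∑ e i`. If it is positive choose `i` with `e i > 0`; the constant coefficient of
`evK (w i) f` vanishes, so `q^N f = th (w i) * h` with `h` of degree `κ + ∑ e - 1` and multiplier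
`-w_i c` (DIV: the degree `κ + ∑ e` is at least `2`). By THZ `evK (w i) (th (w i)) = s * unit`
and `evK (w j) (th (w i))` is a unit for `j ≠ i`; hence `s ^ (e i - 1) ∣ evK (w i) h` and
`s ^ (e j) ∣ evK (w j) h`. Apply the induction hypothesis to `h` and `e - δ_i`. -/
def S_DVM : Prop := ∀ (k : Type) [Field k] (w : Fin 9 → kˣ), Function.Injective w →
  ∀ (e : Fin 9 → ℕ) (κ : ℕ) (c : k) (f : SS k), 1 ≤ κ → c ≠ 0 → IsTh (κ + ∑ i, e i) c f →
  (∀ i, PowerSeries.X ^ e i ∣ evK (w i) f) →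
  ∃ (N : ℕ) (h : SS k), IsTh κ (c * ∏ i, (-(w i : k)) ^ e i) h ∧
    PowerSeries.X ^ N * f = (∏ i, th (w i) ^ e i) * h

/-- CUB (1.5 h, hypotheses S_CFM, S_MUL, S_THC, S_BAS). The cubic relation.
PROOF. Write `x_r = Th 3 r 1`. The four products `x_0^3, x_1^3, x_2^3, x_0 x_1 x_2` are theta functions of
degree `9` and multiplier `1`, and `T^n` occurs in them only for `3 ∣ n` (in `x_r` only for
`n ≡ r mod 3`, THC; use CFM for products or: the property that `T ^ n` occurs only for `n ≡ r mod 3`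
is multiplicative). So by BAS each is `∑_{r < 9} iO (a_r) Th 9 r 1` with `a_r = 0` unless
`r = 0, 3, 6`. Their constant coefficients (`q = 0`) are, by THC: `(1 + T^3)^3`, `T^3`, `T^6`,
`(1 + T^3) T T^2 = T^3 + T^6`; so the vectors `(a_0, a_3, a_6)` are at `q = 0`: `(1, 3, 3)`, `(0, 1, 0)`,
`(0, 0, 1)`, `(0, 1, 1)` (coefficients of `1, T^3, T^6`). The matrix of the first three vectors is
invertible at `q = 0`, hence invertible over `OO k` (its determinant is a unit), so there are unique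
`α, β, γ ∈ OO k` with `x_0 x_1 x_2 = α x_0^3 + β x_1^3 + γ x_2^3` (equality of the vectors, then BAS
for all four), and at `q = 0` we get `(α, β, γ) = (0, 1, 1)`. (`q ∣ f` iff the constant coefficient
of `f` is `0`.) -/
def S_CUB : Prop := ∀ (k : Type) [Field k], ∃ α β γ : OO k, IsCub α β γ

/-- CUV (1.2 h, hypotheses S_THC, S_EVC). The germs lie on the cubic, the derivative is a unit, and
the points of two different parameters are different.
PROOF. `evK x` is a ring homomorphism, so the relation IsCub gives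
`ph x 0 * ph x 1 * ph x 2 = C α (ph x 0)^3 + C β (ph x 1)^3 + C γ (ph x 2)^3` (EVC, last clause), that is
the first clause. `pderiv 0 cub = X_1 X_2 - 3 α X_0^2`. The constant coefficient of
its value at `ph x` lies in `OO k` (image in `KK k`) and at `q = 0` it is `x * x^2 - 3 * 0 * (..) = x^3 ≠ 0`
(`constantCoeff (Th 3 1 1) = T`, `constantCoeff (Th 3 2 1) = T^2`). Third clause: the second
and third coordinates `(u_1, u_2)`, `(u_1', u_2')` at `w`, `w'` have `u_1 u_2' - u_2 u_1'` at `q = 0` equal to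
`w w'^2 - w^2 w' = w w' (w' - w) ≠ 0`; so the two vectors are linearly independent. -/
def S_CUV : Prop := ∀ (k : Type) [Field k] (α β γ : OO k), IsCub α β γ → ∀ x w w' : kˣ,
  MvPolynomial.aeval (ph x) (cubK α β γ) = 0 ∧
  PowerSeries.constantCoeff (MvPolynomial.aeval (ph x) (MvPolynomial.pderiv 0 (cubK α β γ))) ≠ 0 ∧
  (w ≠ w' → LinearIndependent (KK k) ![fun r => PowerSeries.constantCoeff (ph w r),
    fun r => PowerSeries.constantCoeff (ph w' r)])

/-- IND (1.2 h). Linear independence at `q = 0`.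
PROOF. The monomial `X_0^a X_1^b X_2^c` (`b ≤ 2`, `a + b + c = d`) goes to `(1 + T^3)^a T^(b + 2 c)`. The
exponents of `T` in it are `≡ b + 2 c mod 3`; so the sum of the terms of `f` with
`b + 2 c ≡ ρ mod 3` has image `0` for each `ρ`. Two different monomials of the same class `ρ` have
different `a`: if `a = a'` then `b + c = b' + c'`, `b + 2 c = 2 (d - a) - b`, so `b ≡ b' mod 3`, and
`b, b' ≤ 2` gives `b = b'`. Suppose some coefficient of the class is nonzero and let `a_0` be the smallest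
`a` of such a monomial; divide the relation by `(1 + T^3)^{a_0}` (Laurent polynomials over a field are a
domain): `(nonzero constant) * T^n + (1 + T^3) * u = 0`, so `1 + T^3` divides a unit, hence is a
unit; but it is not (units of `k[T, 1/T]` are monomials; or: multiply by a power of `T` and
compare polynomials: `(1 + T^3) v = T^N` with `v ∈ k[T]` is impossible because the lowest and the highest
exponents of the left side differ by at least `3`). -/
def S_IND : Prop := ∀ (k : Type) [Field k] (d : ℕ) (f : MvPolynomial (Fin 3) k), f.IsHomogeneous d →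
  (∀ e ∈ f.support, e 1 ≤ 2) →
  MvPolynomial.aeval ![(1 + LaurentPolynomial.T 3 : LaurentPolynomial k), LaurentPolynomial.T 1,
    LaurentPolynomial.T 2] f = 0 → f = 0

/-- RED (1.2 h). Reduction modulo the cubic.
PROOF. By linearity let `z` be a monomial `X_0^a X_1^b X_2^c`, `a + b + c = d`; strong induction on `b`. If
`b ≤ 2` take `y = 0`, `r = z`. If `b ≥ 3` write `z = X_1^3 z'` with `z'` a monomial of degree `d - 3`;
`β X_1^3 = X_0 X_1 X_2 - α X_0^3 - γ X_2^3 - cub`, so `z = β⁻¹ (X_0 X_1 X_2 - α X_0^3 - γ X_2^3) z' -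
β⁻¹ cub z'`: monomials of degree `d` with exponent of `X_1` equal to `b - 2` or `b - 3`. -/
def S_RED : Prop := ∀ (K : Type) [Field K] (α β γ : K), β ≠ 0 → ∀ (d : ℕ)
  (z : MvPolynomial (Fin 3) K), z.IsHomogeneous d → ∃ y r : MvPolynomial (Fin 3) K,
    z = cub α β γ * y + r ∧ r.IsHomogeneous d ∧ ∀ e ∈ r.support, e 1 ≤ 2

/-- KRN (1.5 h, hypotheses S_EVC, S_EVI, S_THC, S_IND, S_RED, S_CUV). The kernel of the restriction
to the cubic.
PROOF. `β ≠ 0` (its `q^0` part is `1`). By RED write `z = cubK * y + r`; `aeval (ph x) r = 0` by CUV. We show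
`r = 0`. Otherwise, multiplying by a suitable element of `KK k` (a power of `q` times a unit: take
the coefficient of `r` of least `q`-order) we may assume that `r` is the image of
`r' ∈ MvPolynomial (Fin 3) (OO k)` with not all coefficients divisible by `q`. Then
`evK x (eval₂ iO (fun r => Th 3 r 1) r') = aeval (ph x) r = 0` (both are ring homomorphisms applied to
`r'`, compare on constants by EVC and on variables), so `eval₂ iO (Th 3 · 1) r' = 0` by EVI. Take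
constant coefficients (`q = 0`, a ring homomorphism `SS k → k[T, 1/T]`): by THC this is
`aeval ![1 + T^3, T, T^2] r'' = 0`, where `r''` is `r'` modulo `q`, homogeneous of degree `d`,
exponents of `X_1` at most `2`. By IND `r'' = 0`, contradiction. -/
def S_KRN : Prop := ∀ (k : Type) [Field k] (α β γ : OO k), IsCub α β γ → ∀ (x : kˣ) (d : ℕ)
  (z : MvPolynomial (Fin 3) (KK k)), z.IsHomogeneous d →
  MvPolynomial.aeval (ph x) z = 0 → cubK α β γ ∣ z

/-- VSR (0.6 h, hypothesis S_VAB). Vanishing along the germ: a form of multiplicity `a` at the point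
of the parameter `w` restricts to a series divisible by `s^a`.
PROOF. S_VAB, clause (4), with `χ = aeval (ph w)` and the ideal `(s)`: `χ (X_r) - P_r = ph w r - its
constant coefficient ∈ (s)`. -/
def S_VSR : Prop := ∀ (k : Type) [Field k] (w : kˣ) (a : ℕ) (z : MvPolynomial (Fin 3) (KK k)),
  z ∈ Van (fun r => PowerSeries.constantCoeff (ph w r)) a →
  PowerSeries.X ^ a ∣ MvPolynomial.aeval (ph w) z

/-- LEV (2.5 h, hypotheses S_MUL, S_LIN, S_THC, S_BAS, S_EVC, S_EVI, S_EVU, S_THZ, S_DVM, S_KRN,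
S_VSR). The sections of the restriction of a system to the cubic are theta functions of degree `κ`.
PROOF. Let `c = ∏ (-w_i)^(n_i)`, `V` the submodule in question, `z ∈ V`. CLAIM: there is
`v : Fin κ → KK k` with (*) `φ_x(z) ∏ θ_i(x)^{(-n_i)^+} = ∏ θ_i(x)^{(n_i)^+} ∑_r v_r Θ_r(x)` for ALL
units `x` (`φ_x = aeval (ph x)`, `θ_i(x) = evK x (th (w i))`, `Θ_r(x) = evK x (Th κ r c)`). Choose `N` with
`q^N z` the image of `z' ∈ MvPolynomial (Fin 3) (OO k)` (homogeneous of degree `d`). Let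
`F = eval₂ iO (Th 3 · 1) z' ∈ SS k`, a theta function of degree `3 d` and multiplier `1` (monomials:
S_MUL, S_THC; sums: S_LIN), with `evK x F = q^N φ_x(z)` for all `x`. Let
`f = F * ∏ th(w_i)^{(-n_i)^+}`: degree `3 d + ∑ (-n_i)^+ = κ + ∑ (n_i)^+`, multiplier
`c_0 = ∏ (-1/w_i)^{(-n_i)^+}`. By S_VSR `s^{(n_i)^+}` divides `φ_{w_i}(z)`, hence `evK (w_i) f`. By S_DVM
`q^{N'} f = ∏ th(w_i)^{(n_i)^+} * h` with `h` of degree `κ` and multiplier
`c_0 ∏ (-w_i)^{(n_i)^+} = c`, so `h = ∑ iO (b_r) Th κ r c` by S_BAS. Apply `evK x` and divide by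
`q^{N + N'}`: (*) with `v_r = b_r / q^{N+N'}`. The `v` is unique: for a fixed `x_0 ∉ {w_i}` (there
is one, `k` is infinite) the `θ_i(x_0)` are units of `KK k ⟦s⟧` (S_THZ), so `∑ v_r Θ_r(x_0)` is determined
by `z`, and S_EVU applies. Hence `z ↦ v` is linear; this is `a`. If `a z = 0` then `φ_{x_0}(z) = 0`
and S_KRN gives `cubK ∣ z`. -/
def S_LEV : Prop := ∀ (k : Type) [Field k] [CharZero k] (α β γ : OO k), IsCub α β γ →
  ∀ (w : Fin 9 → kˣ), Function.Injective w → ∀ (d : ℕ) (n : Fin 9 → ℤ) (κ : ℕ), 1 ≤ κ →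
  (κ : ℤ) = 3 * d - ∑ i, n i →
  ∃ a : Sys w d (fun i => (n i).toNat) →ₗ[KK k] (Fin κ → KK k),
    (∀ z : Sys w d (fun i => (n i).toNat), a z = 0 →
      cubK α β γ ∣ (z : MvPolynomial (Fin 3) (KK k))) ∧
    ∀ (x : kˣ) (z : Sys w d (fun i => (n i).toNat)),
      MvPolynomial.aeval (ph x) (z : MvPolynomial (Fin 3) (KK k)) *
        ∏ i, evK x (th (w i)) ^ (-n i).toNat =
      (∏ i, evK x (th (w i)) ^ (n i).toNat) *
        ∑ r : Fin κ, PowerSeries.C (a z r) *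
          evK x (Th κ ((r : ℕ) : ℤ) (∏ i, (-((w i : kˣ) : k)) ^ n i))

/-- LHY (1.5 h, hypotheses S_LEV, S_THZ). The level hypothesis for the nine points `P_i` of parameters `w_i`
and the germs at the parameters `x_l`.
PROOF. Level `j`, `3 j ≤ d`: apply S_LEV with the degree `d - 3 j` and `n_i = m_i - j` (so
`(n_i).toNat = m_i - j` in `ℕ`, `3 (d - 3 j) - ∑ n_i = 3 d - ∑ m_i = κ`). The submodule `WW P m ∅ d j` is the
submodule of S_LEV (`Fm` of the nonnegative integer `d - 3 j`; infimum over `range 9` versus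
`Fin 9`; the last infimum is empty). Multiply (*) by `∏ θ_i(x)^{min(m_i, j)}`:
`(j - m_i)^+ + min(m_i, j) = j` and `(m_i - j)^+ + min(m_i, j) = m_i` give
`Θ^j φ_x(z) = B ∑ a_r S_r` with `Θ = ∏ θ_i(x)`, `B = ∏ θ_i(x)^{m_i}`. The multiplier is
`∏ (-w_i)^{m_i - j} = ρ z^{κ (E - 9 j)}` by hypothesis. -/
def S_LHY : Prop := ∀ (k : Type) [Field k] [CharZero k] (α β γ : OO k), IsCub α β γ →
  ∀ (w : Fin 9 → kˣ), Function.Injective w → ∀ (P : ℕ → Fin 3 → KK k),
  (∀ i : Fin 9, P i = fun r => PowerSeries.constantCoeff (ph (w i) r)) →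
  ∀ (m : ℕ → ℕ) (d κ : ℕ), 1 ≤ κ → κ + ∑ i ∈ Finset.range 9, m i = 3 * d →
  ∀ (c : ℕ → k), (∀ j, c j = ∏ i : Fin 9, (-((w i : kˣ) : k)) ^ ((m (i : ℕ) : ℤ) - j)) →
  ∀ (b : ℕ) (x : Fin b → kˣ),
    LevHyp (cubK α β γ) P m d κ (fun l => ph (x l)) (fun l => ∏ i, evK (x l) (th (w i)))
      (fun l => ∏ i : Fin 9, evK (x l) (th (w i)) ^ m (i : ℕ))
      (fun l j r => evK (x l) (Th κ ((r : ℕ) : ℤ) (c j)))

/-! ### Part 2: plane geometry over a field -/

/-- VAA (1.2 h). Multiplicities of products.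
PROOF. `tau P` is an automorphism of algebras, so this is about orders of polynomials at `0`: the order
of `f` is `≥ a` iff all monomials of degree `< a` have coefficient `0`. (1) and (3): clear. (2): Let `g_o`,
the homogeneous component of degree `o` of `tau P g`, be nonzero (all smaller components vanish). If
`tau P z` had a nonzero component of degree `< m`, let `z_t` be the first one (`t < m`); the component of
degree `o + t` of the product is `g_o z_t ≠ 0` (domain) and `o + t < o + m`, contradiction. -/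
def S_VAA : Prop := ∀ (K : Type) [Field K] (P : Fin 3 → K),
  (∀ (a b : ℕ) (z z' : MvPolynomial (Fin 3) K), z ∈ Van P a → z' ∈ Van P b → z * z' ∈ Van P (a + b)) ∧
  (∀ (o m : ℕ) (g z : MvPolynomial (Fin 3) K), g ∈ Van P o → g ∉ Van P (o + 1) →
    g * z ∈ Van P (o + m) → z ∈ Van P m) ∧
  (∀ (a b : ℕ), a ≤ b → Van P b ≤ Van P a) ∧ ∀ z : MvPolynomial (Fin 3) K, z ∈ Van P 0

/-- VAB (1.2 h). More on multiplicities.
PROOF. (1) `tau P z` has the component `z` in degree `d` (translation changes only the lower terms; or: the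
coefficient of `e` with `e.degree = d` in `tau P z` is that of `z`), so if `a > d` all coefficients of
`z` vanish. (2), (3): the coefficient of `0` in `tau P z` is `z(P)`, that of the `i`-th unit vector is
`(∂_i z)(P)` (both sides are determined by linearity and the product rule; check on monomials or use
that `tau P` commutes with `pderiv`). (4): `z = tau (-P) (tau P z)` is a linear combination of products
`∏ (X_r - P_r)^{e_r}` with `∑ e_r ≥ m`, and `χ (X_r - P_r) ∈ I`. -/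
def S_VAB : Prop := ∀ (K : Type) [Field K] (P : Fin 3 → K),
  (∀ (d a : ℕ) (z : MvPolynomial (Fin 3) K), z.IsHomogeneous d → z ∈ Van P a → d < a → z = 0) ∧
  (∀ z : MvPolynomial (Fin 3) K, z ∈ Van P 1 ↔ MvPolynomial.eval P z = 0) ∧
  (∀ (z : MvPolynomial (Fin 3) K) (i : Fin 3),
    MvPolynomial.eval P (MvPolynomial.pderiv i z) ≠ 0 → z ∉ Van P 2) ∧
  ∀ (A : Type) [CommRing A] [Algebra K A] (χ : MvPolynomial (Fin 3) K →ₐ[K] A) (I : Ideal A) (m : ℕ)
    (z : MvPolynomial (Fin 3) K), (∀ r, χ (MvPolynomial.X r) - algebraMap K A (P r) ∈ I) →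
    z ∈ Van P m → χ z ∈ I ^ m

/-- SEM (1.2 h). Semicontinuity of the kernel in a polynomial family.
PROOF. Let `ρ` be the rank of `Λ 0` and `e_1, ..., e_ρ ∈ V` with `Λ_0 e_1, ..., Λ_0 e_ρ` linearly independent;
choose functionals `φ_i` on `U` with `φ_i (Λ_0 e_j) = δ_ij` (extend to a basis). The determinant of the matrix
`φ_i ((∑ ε^t Λ_t) e_j)` is a polynomial in `ε` with value `1` at `ε = 0`, so it has finitely
many zeros; for the other `ε` the vectors `(∑ ε^t Λ_t) e_j` are independent, the rank is `≥ ρ` and the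
kernel has dimension `≤ dim V - ρ = dim ker Λ_0`. -/
def S_SEM : Prop := ∀ (K : Type) [Field K] (V U : Type) [AddCommGroup V] [Module K V]
  [AddCommGroup U] [Module K U] [FiniteDimensional K V] (Λ : ℕ → V →ₗ[K] U) (n : ℕ), 0 < n →
  ∃ E : Finset K, ∀ ε ∉ E,
    finrank K (LinearMap.ker (∑ i ∈ Finset.range n, ε ^ i • Λ i)) ≤ finrank K (LinearMap.ker (Λ 0))

/-- GRK (2 h, hypothesis S_SEM). The filtered rank lemma.
PROOF. Choose complements `C_j` (`j < lam`): `F j = C_j ⊕ F (j+1)`. So `F 0 = C_0 ⊕ ... ⊕ C_{lam-1} ⊕ F lam`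
and `dim F 0 = ∑ dim C_j + dim F lam`. Let `V' = ∏_{j<lam} C_j` and for `t ∈ ℕ` let
`Λ_t : V' → U`, `(z_j) ↦ ∑_j L_{j+t} z_j` (`j + t < n`, else `0`). For `ε ≠ 0` and `(z_j) ∈ V'`:
`Ψ_ε (∑_j ε^{-j} z_j) = ∑_j ∑_{i ≥ j} ε^{i - j} L_i z_j = ∑_t ε^t Λ_t (z_j)` because `L_i z_j = 0` for
`i < j`. Therefore `rank (Ψ_ε restricted to F 0) ≥ rank (∑ ε^t Λ_t) ≥ dim V' - dim ker Λ_0` for all `ε`
outside a finite set (S_SEM, add `0` to the set). Now `Λ_0 (z_j) = ∑_{j<lam} L_j z_j = ∑ β_j (a_j z_j)`,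
and `(z_j) ↦ (a_j z_j)` is injective on `V'` (`a_j z_j = 0` gives `z_j ∈ F (j+1) ∩ C_j = 0`), so
`dim ker Λ_0 ≤ dim ker (∑ β_j ∘ proj_j)`. Hence `dim (F 0 ⊓ ker Ψ_ε) = dim F 0 - rank ≤
dim F lam + dim ker (∑ β_j ∘ proj_j)`. -/
def S_GRK : Prop := ∀ (K : Type) [Field K] (V U A : Type) [AddCommGroup V] [Module K V]
  [AddCommGroup U] [Module K U] [AddCommGroup A] [Module K A] [FiniteDimensional K A]
  (F : ℕ → Submodule K V) [FiniteDimensional K (F 0)] (lam n : ℕ) (L : ℕ → V →ₗ[K] U)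
  (a : ∀ j, F j →ₗ[K] A) (β : ℕ → A →ₗ[K] U), (∀ j, F (j + 1) ≤ F j) → 0 < n → lam ≤ n →
  (∀ i j, i < j → ∀ z ∈ F j, L i z = 0) →
  (∀ j < lam, ∀ z : F j, L j (z : V) = β j (a j z)) →
  (∀ j < lam, ∀ z : F j, a j z = 0 → (z : V) ∈ F (j + 1)) →
  ∃ E : Finset K, ∀ ε ∉ E,
    finrank K (F 0 ⊓ LinearMap.ker (∑ i ∈ Finset.range n, ε ^ i • L i) : Submodule K V) ≤
      finrank K (F lam) +
        finrank K (LinearMap.ker (∑ j : Fin lam, (β j) ∘ₗ (LinearMap.proj j :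
          (Fin lam → A) →ₗ[K] A)))

/-- EXP (1.5 h). Expansion in `ε` of the deformed germ.
PROOF. Let `R = K⟦s⟧[t]` and `Ψ : MvPolynomial (Fin 3) K →ₐ R[e]`, `X_0 ↦ f_0 + e v (1 + t)`, `X_1 ↦ f_1`,
`X_2 ↦ f_2`; let `L i z` be the coefficient of `e^i` in `Ψ z`. Evaluation at `e = ε` gives
`tst f v ε z = ∑ ε^i L i z`, and the `e`-degree of `Ψ z` is at most the total degree of `z`. The coefficient
of `e^0` of `Ψ z` is `aeval f z` (set `e = 0`), that of `e^1` is `v (1 + t) * aeval f (∂_0 z)` (both sides are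
derivations along `aeval f`, equal on the variables; or Taylor). So `Ψ g = e * γ` with
`coefficient_0 γ = v (1 + t) aeval f (∂_0 g) = (1 + t) Y Θ`. Hence `Ψ (g^j z) = e^j γ^j Ψ z` has
coefficients `0` below `e^j` and at `e^j` the coefficient `(1 + t)^j Y^j Θ^j aeval f z`. -/
def S_EXP : Prop := ∀ (K : Type) [Field K] (g : MvPolynomial (Fin 3) K) (f : Fin 3 → PowerSeries K)
  (v Θ : PowerSeries K) (Y : K), MvPolynomial.aeval f g = 0 →
  MvPolynomial.aeval f (MvPolynomial.pderiv 0 g) * v = PowerSeries.C Y * Θ →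
  ∃ L : ℕ → MvPolynomial (Fin 3) K →ₗ[K] Polynomial (PowerSeries K),
    (∀ (n : ℕ) (z : MvPolynomial (Fin 3) K) (ε : K), z.totalDegree < n →
      tst f v ε z = ∑ i ∈ Finset.range n, ε ^ i • L i z) ∧
    (∀ (i j : ℕ) (z : MvPolynomial (Fin 3) K), i < j → L i (g ^ j * z) = 0) ∧
    ∀ (j : ℕ) (z : MvPolynomial (Fin 3) K), L j (g ^ j * z) =
      Polynomial.C (PowerSeries.C (Y ^ j) * Θ ^ j * MvPolynomial.aeval f z) *
        (1 + Polynomial.X) ^ j

/-- JJI (0.5 h). Elements of the power of the ideal `(s, t)`.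
PROOF. Induction on `M`: the set `J_M` of the `p` with `coeff α (p.coeff β) = 0` for all `α + β < M` is an
ideal, `s J_M ⊆ J_{M+1}` and `t J_M ⊆ J_{M+1}`. -/
def S_JJI : Prop := ∀ (K : Type) [Field K] (M : ℕ) (p : Polynomial (PowerSeries K)),
  p ∈ (Ideal.span {Polynomial.C PowerSeries.X, Polynomial.X} : Ideal (Polynomial (PowerSeries K))) ^ M →
  ∀ α β : ℕ, α + β < M → PowerSeries.coeff α (p.coeff β) = 0

/-- DRP (1 h, hypotheses S_VAA, S_VAB). Multiplication by the cubic moves up one level.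
PROOF. (1) If `z ∈ WW .. (j + i)` then `g^i z ∈ WW .. j`: degree `3 i + (d - 3 (j + i))` (if
`d - 3 (j + i) < 0` then `z = 0`); multiplicity `i + (m_l - (j + i)) ≥ m_l - j` at the nine points
(S_VAA (1), (3)), and at least `m_l` at the points of `T`. (2) If `g z ∈ WW .. j` then `z ∈ WW .. (j+1)`: if
`z ≠ 0` it is homogeneous of degree `d - 3 j - 3` (a factor of a nonzero homogeneous polynomial by a
homogeneous one; `g ≠ 0` because `g ∉ Van (P 0) 2`); S_VAA (2) with `o = 1` at the nine points (if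
`m_l - j = 0` nothing to prove), with `o = 0` at the points of `T`. -/
def S_DRP : Prop := ∀ (K : Type) [Field K] (g : MvPolynomial (Fin 3) K) (P : ℕ → Fin 3 → K)
  (m : ℕ → ℕ) (T : Finset ℕ) (d : ℕ), g.IsHomogeneous 3 →
  (∀ i < 9, g ∈ Van (P i) 1 ∧ g ∉ Van (P i) 2) → (∀ i ∈ T, g ∉ Van (P i) 1) →
  (∀ (j i : ℕ) (z : MvPolynomial (Fin 3) K), z ∈ WW P m T d (j + i) → g ^ i * z ∈ WW P m T d j) ∧
  (∀ (j : ℕ) (z : MvPolynomial (Fin 3) K), g * z ∈ WW P m T d j → z ∈ WW P m T d (j + 1)) ∧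
  ∀ j, FiniteDimensional K (WW P m T d j)

/-- MIA (2.5 h, hypotheses S_GRK, S_EXP, S_JJI, S_DRP, S_VAB). THE MAIN INEQUALITY at one level.
PROOF. Put `V = MvPolynomial (Fin 3) K`, `F j = g^j * WW P m T d (j0 + j)` (image under the injective map
`g^j *`), `F (j+1) ≤ F j` and `F 0 = WW P m T d j0`, `dim F j = dim WW P m T d (j0 + j)` (S_DRP).
`A = Fin κ → K`; `a_j (g^j z) =` the `a` of LevHyp at level `j0 + j` applied to `z`
(`WW P m T d (j0+j) ≤ WW P m ∅ d (j0+j)`; if `3 (j0 + j) > d` the space is `0` and `a_j = 0`). If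
`a_j (g^j z) = 0` then `g ∣ z`, `z = g z'`, `z' ∈ WW P m T d (j0 + j + 1)` (S_DRP) so `g^j z ∈ F (j+1)`.
`U = Fin b → Fin M → Fin M → K`. For each `l : Fin b` let `L^l_i` be the maps of S_EXP for
`(h l, v l, Θ l, Y l)`, and `unit_l = Θ_l^{j0} / B_l ∈ K⟦s⟧`; `L_i z = (l, α, β) ↦` the coefficient of
`s^α t^β` of `unit_l * L^l_i z` if `α + β < M`, and `0` otherwise. Then `L_i = 0` on `F j` for `i < j`, and
for `g^j z ∈ F j`: `unit_l L^l_j (g^j z) = unit_l (1 + t)^j Y_l^j Θ_l^j aeval (h l) z = (1+t)^j Y_l^j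
B_l^{-1} Θ_l^{j0 + j} aeval (h l) z = (1+t)^j Y_l^j ∑_r a_r S_{l, j0 + j, r}`, whose coefficient of
`s^α t^β` is `C(j, β) Y_l^j ∑_r a_r coeff α S_{l,j0+j,r}`: this defines `β_j`, and the kernel of
`∑ β_j ∘ proj_j` is `Ker M lam j0 Y S`, of dimension `≤ k0`. Take `n = d + lam + 1`. By S_GRK, for `ε`
outside a finite set, `dim (F 0 ⊓ ker Ψ_ε) ≤ dim F lam + k0`, where `Ψ_ε = ∑ ε^i L_i` sends `z` (degree
`≤ d`) to the coefficients of `unit_l * tst (h l) (v l) ε z`. Finally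
`WW P' m (T ∪ t) d j0 ≤ F 0 ⊓ ker Ψ_ε`: the points `P i` with `i < 9` or `i ∈ T` are unchanged, and
`z ∈ Van (nP (h l) (v l) ε) M` gives `tst (h l) (v l) ε z ∈ (s, t)^M` (S_VAB (4): `X_r` goes to the
coordinate of `nP` modulo `(s, t)`), so S_JJI applies (also to the product with `unit_l`). -/
def S_MIA : Prop := ∀ (K : Type) [Field K] (g : MvPolynomial (Fin 3) K) (P : ℕ → Fin 3 → K)
  (m : ℕ → ℕ) (d κ b M lam k0 j0 : ℕ) (h : Fin b → Fin 3 → PowerSeries K)
  (v Θ B : Fin b → PowerSeries K) (Y : Fin b → K) (S : Fin b → ℕ → Fin κ → PowerSeries K)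
  (T : Finset ℕ) (t : Fin b → ℕ), g.IsHomogeneous 3 →
  (∀ i < 9, g ∈ Van (P i) 1 ∧ g ∉ Van (P i) 2) → (∀ i ∈ T, g ∉ Van (P i) 1) →
  (∀ i, MvPolynomial.aeval (h i) g = 0) →
  (∀ i, MvPolynomial.aeval (h i) (MvPolynomial.pderiv 0 g) * v i = PowerSeries.C (Y i) * Θ i) →
  (∀ i, PowerSeries.constantCoeff (Θ i) ≠ 0) → (∀ i, PowerSeries.constantCoeff (B i) ≠ 0) →
  LevHyp g P m d κ h Θ B S → (∀ i, 9 ≤ t i ∧ t i ∉ T ∧ m (t i) = M) → Function.Injective t →
  finrank K (Ker M lam j0 Y S) ≤ k0 →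
  ∃ E : Finset K, ∀ ε ∉ E,
    finrank K (WW (Function.extend t (fun l => nP (h l) (v l) ε) P) m
      (T ∪ Finset.univ.image t) d j0) ≤ finrank K (WW P m T d (j0 + lam)) + k0

/-- MIB (1 h, hypotheses S_MIA, S_VAB). THE MAIN INEQUALITY at all levels.
PROOF. `WW .. j0 = ⊥` if `3 j0 > d` (degree negative), so only `j0 ≤ d` matter: take the union of the finite
sets of S_MIA for `j0 ≤ d`. For `g` and the new points: `g (nP (h l) (v l) ε)` is a polynomial in `ε` whose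
coefficient at `ε^0` is `g (constantCoeff (h l)) = 0` and at `ε^1` is `constantCoeff (v l) * (∂_0 g)(constantCoeff (h l))
= Y_l * constantCoeff (Θ l) ≠ 0`; so it is nonzero for all but finitely many `ε`. `K` is infinite:
choose `ε` outside all these sets. -/
def S_MIB : Prop := ∀ (K : Type) [Field K] [Infinite K] (g : MvPolynomial (Fin 3) K)
  (P : ℕ → Fin 3 → K) (m : ℕ → ℕ) (d κ b M lam k0 : ℕ) (h : Fin b → Fin 3 → PowerSeries K)
  (v Θ B : Fin b → PowerSeries K) (Y : Fin b → K) (S : Fin b → ℕ → Fin κ → PowerSeries K)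
  (T : Finset ℕ) (t : Fin b → ℕ), g.IsHomogeneous 3 →
  (∀ i < 9, g ∈ Van (P i) 1 ∧ g ∉ Van (P i) 2) → (∀ i ∈ T, 9 ≤ i ∧ g ∉ Van (P i) 1) →
  (∀ i, MvPolynomial.aeval (h i) g = 0) →
  (∀ i, MvPolynomial.aeval (h i) (MvPolynomial.pderiv 0 g) * v i = PowerSeries.C (Y i) * Θ i) →
  (∀ i, Y i ≠ 0) → (∀ i, PowerSeries.constantCoeff (Θ i) ≠ 0) →
  (∀ i, PowerSeries.constantCoeff (B i) ≠ 0) →
  LevHyp g P m d κ h Θ B S → (∀ i, 9 ≤ t i ∧ t i ∉ T ∧ m (t i) = M) → Function.Injective t →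
  (∀ j0, finrank K (Ker M lam j0 Y S) ≤ k0) →
  ∃ P' : ℕ → Fin 3 → K, (∀ i, (∀ l, i ≠ t l) → P' i = P i) ∧ (∀ l, g ∉ Van (P' (t l)) 1) ∧
    ∀ j0, finrank K (WW P' m (T ∪ Finset.univ.image t) d j0) ≤
      finrank K (WW P m T d (j0 + lam)) + k0

/-- SIM (0.7 h, hypothesis S_VAB). Simple points.
PROOF. Induction on the cardinality of `F`. One point: if the subspace `W'` (finite dimensional) is
`0` nothing to do; else take `0 ≠ z ∈ W'` and a point `x` with `z(x) ≠ 0` (`K` infinite,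
`MvPolynomial.funext`); then `W' ⊓ Van x 1 < W'` (S_VAB (2)). -/
def S_SIM : Prop := ∀ (K : Type) [Field K] [Infinite K] (W : Submodule K (MvPolynomial (Fin 3) K))
  [FiniteDimensional K W] (P : ℕ → Fin 3 → K) (F : Finset ℕ), ∃ P' : ℕ → Fin 3 → K,
    (∀ i ∉ F, P' i = P i) ∧
    finrank K (W ⊓ ⨅ i ∈ F, Van (P' i) 1 : Submodule K (MvPolynomial (Fin 3) K)) ≤
      finrank K W - F.card

/-- MNR (1 h). Rank and minors.
PROOF. `ρ ≤ rank A`: choose `ρ` linearly independent rows (the rows span a space of dimension `rank A`: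
a maximal independent subfamily), then in the `ρ × C` matrix of rank `ρ` choose `ρ` linearly independent
columns; the square matrix has independent columns, so its determinant is not `0`. Conversely a nonzero
minor gives `ρ` independent rows. (Please search Mathlib and the pool for it first.) -/
def S_MNR : Prop := ∀ (K : Type) [Field K] (R C : Type) [Fintype R] [Fintype C] (A : Matrix R C K)
  (ρ : ℕ), ρ ≤ A.rank ↔ ∃ (f : Fin ρ → R) (g : Fin ρ → C), (A.submatrix f g).det ≠ 0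

/-- TRK (2 h, hypothesis S_MNR). Transfer from special points over `K` to general points over `ℂ`.
PROOF. Index the monomials of degree `d` by a finite type `C` and the conditions by
`R = {(i, e) : e.degree < m i, e.degree ≤ d}` (for `e.degree > d` the condition is empty). The
coefficient of `X^e` in `tau P X^a` is `∏_k C(a_k, e_k) P_k^{a_k - e_k}` (`0` if some `e_k > a_k`). So
there is ONE matrix `𝔸` over `MvPolynomial (Fin s × Fin 3) ℤ` with entries
`∏_k C(a_k, e_k) X_{(i,k)}^{a_k - e_k}` such that for every field `L` and `P : Fin s → Fin 3 → L` the space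
`Fm L d ⊓ ⨅ Van (P i) (m i)` is the kernel of the specialization of `𝔸` at `P`, so its dimension is
`|C| - rank 𝔸(P)`. Let `D = |C|` and `ρ = D - N` (if `N ≥ D` take `G = 1`). By hypothesis `rank 𝔸(P) ≥ ρ` over
`K`, so some `ρ`-minor `δ ∈ ℤ[X]` of `𝔸` is nonzero at `P`, hence `δ ≠ 0`; let `G` be its image in
`ℂ[X]`, nonzero since `ℤ → ℂ` is injective. If `G(Q) ≠ 0` then `rank 𝔸(Q) ≥ ρ` and the dimension at `Q`
is `≤ D - ρ = N`. -/
def S_TRK : Prop := ∀ (K : Type) [Field K] [CharZero K] (s d N : ℕ) (m : Fin s → ℕ)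
  (P : Fin s → Fin 3 → K),
  finrank K (Fm K d ⊓ ⨅ i, Van (P i) (m i) : Submodule K (MvPolynomial (Fin 3) K)) ≤ N →
  ∃ G : MvPolynomial (Fin s × Fin 3) ℂ, G ≠ 0 ∧ ∀ Q : Fin s → Fin 3 → ℂ,
    MvPolynomial.eval (fun ij : Fin s × Fin 3 => Q ij.1 ij.2) G ≠ 0 →
    finrank ℂ (Fm ℂ d ⊓ ⨅ i, Van (Q i) (m i) : Submodule ℂ (MvPolynomial (Fin 3) ℂ)) ≤ N

/-! ### Part 3: the conditions of a block of points -/

/-- SPN (0.8 h). Products of few linear forms.
PROOF. For `t ≤ M` let `V_t` be the span of the functions `(j, n) ↦ C(j, β) C(n, α)`, `α + β < t` (generalized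
binomial coefficients). `j C(j, β) = (β + 1) C(j, β + 1) + β C(j, β)` and the same for `n`
(`Ring.choose`: `(n - α) C(n, α) = (α + 1) C(n, α + 1)`), so a linear form (of degree `≤ 1`) maps `V_t`
into `V_{t+1}`; `1 ∈ V_1`. So a product of `r < M` linear forms lies in `V_{r+1} ≤ V_M`. -/
def S_SPN : Prop := ∀ (M : ℕ) (S : Finset (ℤ × ℤ)) (a : ℤ × ℤ → ℚ),
  (∀ α β : ℕ, α + β < M →
    ∑ p ∈ S, a p * (((Ring.choose p.1 β : ℤ) : ℚ) * ((Ring.choose p.2 α : ℤ) : ℚ)) = 0) →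
  ∀ l : List (ℤ × ℤ × ℤ), l.length < M →
    ∑ p ∈ S, a p * (l.map fun c => ((c.1 * p.1 + c.2.1 * p.2 + c.2.2 : ℤ) : ℚ)).prod = 0

/-- COL (1 h, hypothesis S_SPN). Points on parallel lines.
PROOF. Write `X_p = p.1 - P p.2`. Suppose `a` satisfies the conditions and is not `0` on `S`; among the `p ∈ S`
with `a p ≠ 0` choose one with `π (X_p)` maximal. Take the linear forms `j - P n - X'` for the
values `X'` occurring in `S` with `π(X') < π(X_p)` (at most `π(X_p)` of them, as `π` is injective on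
the occurring values) and the forms `n - p'.2` for the points `p' ≠ p` of `S` on the line of `p` (at most
`M - π(X_p) - 1`). Their number is `< M`, so by SPN `∑_{p'} a p' f(p') = 0` for the product `f`. Terms with
`π(X_{p'}) > π(X_p)`: `a p' = 0`. Terms with `π(X_{p'}) < π(X_p)`: `f(p') = 0`. Terms with
`X_{p'} = X_p`, `p' ≠ p`: `f(p') = 0`. And `f(p) ≠ 0` (two points of the same line with the same second
coordinate are equal). So `a p = 0`, contradiction. -/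
def S_COL : Prop := ∀ (M : ℕ) (S : Finset (ℤ × ℤ)) (P : ℤ) (π : ℤ → ℕ),
  (∀ p ∈ S, ∀ p' ∈ S, π (p.1 - P * p.2) = π (p'.1 - P * p'.2) →
    p.1 - P * p.2 = p'.1 - P * p'.2) →
  (∀ p ∈ S, (S.filter fun p' => p'.1 - P * p'.2 = p.1 - P * p.2).card + π (p.1 - P * p.2) ≤ M) →
  Indep M S

/-- STR (1.5 h, hypothesis S_COL). The strips are unisolvent.
PROOF. Let `(j, n) ∈ strip P κ (P R) s`, `n' = n - s`, `X = j - P n'`, so `j = X + P n'`.
`(2P-1) j ≤ 2P² n'` iff `(2P-1) X ≤ P n'` iff `2 P X ≤ j`. `2P² (n' - κ) < (2P-1) j` iff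
`P n' - 2P² κ < (2P-1) X` iff `j < 2P (X + κ P)`. So the points of the line `X` are the `j` with
`P lo ≤ j < P hi`, `j ≡ X mod P`, where `lo = max (0, 2 X)`, `hi = min (R, 2 (X + κ P))`; their number is
`cnt X = max (hi - lo, 0)`; the line is nonempty only if `-κ P < X` and `2 X < R` (`R` is odd).
`2 κ P + R = 2 M + 1`, so `R ≠ 2 κ P`. On the occurring lines define `π X` (and `cnt ≤ M - π`):
if `R > 2 κ P`: (a) `X < 0`: `π = M - 2 (X + κ P)`, `cnt ≤ 2 (X + κ P)`; (b) `X ≥ 0`, `R - 2 X < 2 κ P`: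
`π = M - (R - 2 X)`, `cnt ≤ R - 2 X`; (c) `X ≥ 0`, `R - 2 X > 2 κ P`: `π = X`, `cnt ≤ 2 κ P ≤ M - X`
because `2 X < R - 2 κ P = 2 M + 1 - 4 κ P`. The values of `M - π` are: (a) even in `[2, 2κP - 2]`, (b) odd in
`[1, 2κP - 1]`, (c) `≥ 2κP`; each case is injective in `X`: so `π` is injective.
If `R < 2 κ P`: (a) `2 (X + κ P) < R` (so `X < 0`): `π = M - 2 (X + κ P)`, `cnt ≤ 2 (X + κ P)`;
(b) `X ≥ 1`: `π = M - (R - 2 X)`, `cnt ≤ R - 2 X`; (c) `X ≤ 0`, `2 (X + κ P) > R`: `π = -X`,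
`cnt ≤ R ≤ M + X` because `-2 X < 2 κ P - R = 2 M + 1 - 2 R`. The values of `M - π` are: (a) even in
`[2, R - 1]`, (b) odd in `[1, R - 2]`, (c) `≥ R`: injective.
Apply COL with `π' Z = π (Z + P s)`, since `j - P n = X - P s`. -/
def S_STR : Prop := ∀ (P κ M R : ℕ) (s : ℤ), 1 ≤ P → 1 ≤ κ → 2 * κ * P + R = 2 * M + 1 →
  Indep M (strip P κ (P * R) s)

/-- PRD (1.5 h). The coefficient of the extreme monomial of a product.
PROOF. For `F ∈ (ℚ[G])⟦q⟧` and `ω ∈ ℚ` say `F ≥ ω` if all its monomials `(N, g)` (coefficient `≠ 0`)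
have weight `N + bw g ≥ ω`. If `F ≥ ω` and `F' ≥ ω'` then `F F' ≥ ω + ω'`, and the coefficient of `F F'`
at a monomial of weight exactly `ω + ω'` is the sum over the pairs of monomials of weights exactly `ω`, `ω'`
(the other pairs have larger weight). Induction on `s`: let `Q = (∑_s P_c, ∑_s g_c)`. (i) All monomials of
`∏ F_c` have weight `≥ ∑ ω_c`, with equality only for `Q` [by induction: equality forces equality
in each factor]. (ii) If all `ω_c = P_c + bw g_c`: the coefficient at `Q` is the product of the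
coefficients (only one pair contributes). (iii) If for some `c` the weight of `(P_c, g_c)` is not `ω_c` then
all monomials of `F_c` have weight `> ω_c`, so all monomials of the product have weight
`> ∑ ω_c` and the coefficient at a monomial of weight `∑ ω_c` is `0`. -/
def S_PRD : Prop := ∀ (G : Type) [AddCommGroup G] (bw : G →+ ℚ) (ι : Type) (s : Finset ι)
  (F : ι → PowerSeries (AddMonoidAlgebra ℚ G)) (om : ι → ℚ) (Pn : ι → ℕ) (Pg : ι → G),
  (∀ c ∈ s, ∀ (N : ℕ) (g : G), (PowerSeries.coeff N (F c)).coeff g ≠ 0 →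
    om c ≤ N + bw g ∧ (om c = N + bw g → N = Pn c ∧ g = Pg c)) →
  ∑ c ∈ s, om c = ((∑ c ∈ s, Pn c : ℕ) : ℚ) + bw (∑ c ∈ s, Pg c) →
  ((∀ c ∈ s, om c = Pn c + bw (Pg c)) →
    (PowerSeries.coeff (∑ c ∈ s, Pn c) (∏ c ∈ s, F c)).coeff (∑ c ∈ s, Pg c) =
      ∏ c ∈ s, (PowerSeries.coeff (Pn c) (F c)).coeff (Pg c)) ∧
  ((∃ c ∈ s, om c ≠ Pn c + bw (Pg c)) →
    (PowerSeries.coeff (∑ c ∈ s, Pn c) (∏ c ∈ s, F c)).coeff (∑ c ∈ s, Pg c) = 0)

/-- DET (2 h, hypothesis S_PRD). Injectivity from the extreme monomials.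
PROOF. For `i ∈ I` let `Col_i = {c : ist c = i}`, `Row_i = {ρ : pt ρ = i}`. By the last hypothesis the rational
matrix `(v ρ c)`, `ρ ∈ Row_i`, `c ∈ Col_i`, is injective, so it has a left inverse: rational
`u c' ρ` (`c' ∈ Col_i`, `ρ ∈ Row_i`) with `∑_{ρ ∈ Row_i} u c' ρ * v ρ c = δ_{c' c}` for `c, c' ∈ Col_i`.
Let `N c' c = ∑_{ρ ∈ Row_{ist c'}} u c' ρ * M ρ c`, a square matrix over `(ℚ[G])⟦q⟧` indexed by `Col`. All
monomials of `N c' c` have weight `≥ om c + ta (ist c')`, with equality only for `(Pn c, Pg c)` and only if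
`ist c' = ist c`, and in this case the coefficient there is `δ_{c' c}`. In
`det N = ∑_σ sign σ ∏_c N (σ c) c` we have `∑_c (om c + ta (ist (σ c))) = ∑_c (om c + ta (ist c)) =
∑_c (Pn c + bw (Pg c))` for every permutation `σ`. So by S_PRD the coefficient of `∏_c N (σ c) c` at
`(∑ Pn c, ∑ Pg c)` is `0` unless `ist (σ c) = ist c` for all `c`, when it is `∏ δ_{σ c, c}`; hence it is
`1` for `σ = 1` and `0` otherwise: NO CANCELLATION, the coefficient of `det N` is `1`, so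
`det N ≠ 0`. If `∑_c f(M ρ c) a c = 0` for all `ρ` then `f(N) a = 0`, `det f(N) = f (det N) ≠ 0`, so `a = 0`. -/
def S_DET : Prop := ∀ (G Row Col I : Type) [AddCommGroup G] [Fintype Row] [Fintype Col]
  [DecidableEq I] (bw : G →+ ℚ) (pt : Row → I) (ist : Col → I)
  (M : Row → Col → PowerSeries (AddMonoidAlgebra ℚ G)) (om : Col → ℚ) (ta : I → ℚ)
  (Pn : Col → ℕ) (Pg : Col → G) (v : Row → Col → ℚ),
  (∀ ρ c (N : ℕ) (g : G), (PowerSeries.coeff N (M ρ c)).coeff g ≠ 0 →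
    om c + ta (pt ρ) ≤ N + bw g ∧
      (om c + ta (pt ρ) = N + bw g → pt ρ = ist c ∧ N = Pn c ∧ g = Pg c)) →
  (∀ c, om c + ta (ist c) = Pn c + bw (Pg c)) →
  (∀ ρ c, pt ρ = ist c → (PowerSeries.coeff (Pn c) (M ρ c)).coeff (Pg c) = v ρ c) →
  (∀ a : Col → ℚ, (∀ ρ, ∑ c ∈ Finset.univ.filter (fun c => ist c = pt ρ), v ρ c * a c = 0) →
    a = 0) →
  ∀ (L : Type) [Field L] (f : PowerSeries (AddMonoidAlgebra ℚ G) →+* L), Function.Injective f →
    ∀ a : Col → L, (∀ ρ, ∑ c, f (M ρ c) * a c = 0) → a = 0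

/-- TIP (0.8 h). The nearest centre.
PROOF. With `Z(i, n) = 4P² n - 2(2P-1) j - 4P² κ' i - 2P² κ' + 1` (all integers).
`Z(i0, n0) ≥ 1 - 2P² κ'` from the first hypothesis (times 2) and `Z(i0, n0) ≤ 2P² κ' - 1` from
`2P² (n0 - κ' (i0 + 1)) + 1 ≤ (2P - 1) j` (times 2). Let `(i, n) ≠ (i0, n0)`. If `n = n0`:
`|Z| ≥ 4P² κ' |i - i0| - |Z(i0, n0)| > 2P² κ'`. If `n ≥ n0 + b κ'`: from `2P² n0 ≥ (2P-1) j + 2P² κ' i0`:
`Z ≥ 4P² κ' (b + i0 - i) - 2P² κ' + 1 ≥ 2P² κ' + 1`, since `b + i0 - i ≥ 1`. If `n ≤ n0 - b κ'`: from the second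
`Z ≤ 4P² κ' (i0 + 1 - b - i) - 2P² κ' - 1 ≤ -2P² κ' - 1`. These are all cases, since
`b κ' ∣ n - n0`. -/
def S_TIP : Prop := ∀ (P b κ' j n0 n i0 i : ℤ), 1 ≤ P → 1 ≤ b → 1 ≤ κ' → 0 ≤ i0 → i0 < b → 0 ≤ i →
  i < b → (2 * P - 1) * j + 2 * P ^ 2 * κ' * i0 ≤ 2 * P ^ 2 * n0 →
  2 * P ^ 2 * (n0 - κ' * (i0 + 1)) < (2 * P - 1) * j → b * κ' ∣ n - n0 →
  (4 * P ^ 2 * n0 - 2 * (2 * P - 1) * j - 4 * P ^ 2 * κ' * i0 - 2 * P ^ 2 * κ' + 1) ^ 2 <
      (2 * P ^ 2 * κ') ^ 2 ∧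
    ((i, n) ≠ (i0, n0) → (2 * P ^ 2 * κ') ^ 2 <
      (4 * P ^ 2 * n - 2 * (2 * P - 1) * j - 4 * P ^ 2 * κ' * i - 2 * P ^ 2 * κ' + 1) ^ 2)

/-- BLK (2.5 h, hypotheses S_DET, S_TIP, S_EVC, S_THC). Independence of the columns of a block from the
independence of lattice points.
PROOF. `κ = b κ'`. Let `G = ℤ × (Fin b → ℤ) × (Fin b → ℤ)`, `ι : ℚ[G] → k` the ring homomorphism
`g ↦ mon z x y g`, injective by `Gen`, and `f : (ℚ[G])⟦q⟧ → k⟦q⟧ → KK k`, injective. Rows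
`ρ = (i, α, β)`, `α + β < M` (`α, β : Fin M`), `pt ρ = i`. Columns `p = (j, n0) ∈ C`, `r = n0 mod κ`; `ist p` is the
`i0` with `(2P-1) j + 2P² κ' i0 ≤ 2P² n0` and `2P² (n0 - κ' (i0 + 1)) < (2P-1) j`
(`n0 = ⌈hj⌉ + κ' i0 + rest`, `0 ≤ rest < κ'`; it exists and is unique since `p` is in the strip of thickness
`κ = b κ'`). By EVC and THC the coefficient of `s^α` in `evK (x i) (Th κ r c)` is
`∑_l c^l q^{qe κ r l} x_i^{r + κ l} C(r + κ l, α)`; with `c = ρ z^{κ (E - 9 j)}` the entry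
`y_i^j C(j, β) coeff α (..)` is `f` of the series `M ρ p` with the monomials
`(N, g) = (qe κ r l, (κ (E - 9 j) l, (r + κ l) e_i, j e_i))` and coefficients
`ρ^l C(j, β) C(r + κ l, α)`, `l ∈ ℤ`. Weights: put `n = r + κ l`, `h = (2P-1)/(2P²)`,
`β_i = κ' i + κ'/2 - 1/(4P²)`; `bw (g_0, g_1, g_2) = h/(9 κ) g_0 + ∑ (1/2 - h E/(9κ) - β_i/κ) g_1 i +
∑ (h β_i/κ) g_2 i`. As `qe κ r l = (n² - κ n)/(2κ) - (r² - κ r)/(2κ)` and `κ l = n - r`, the weight of this
monomial is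
`(n² - κ n)/(2κ) + (h/(9κ)) (E - 9 j)(n - r) + (1/2 - hE/(9κ) - β_i/κ) n + (h β_i/κ) j - (r² - κ r)/(2κ)`
`= (n² - 2 n (h j + β_i))/(2κ) + (h β_i/κ) j - (h/(9κ)) (E - 9 j) r - (r² - κ r)/(2κ)`
`= (n - h j - β_i)²/(2κ) - h² j²/(2κ) - β_i²/(2κ) - (h/(9κ)) (E - 9j) r - (r² - κ r)/(2κ)`.
So with `ta i = - β_i²/(2κ)` and `om p = (n0 - h j - β_{i0})²/(2κ) - h² j²/(2κ) - (h/(9κ)) (E - 9j) r -
(r² - κ r)/(2κ)` the hypothesis of DET is `(n - hj - β_i)² ≥ (n0 - hj - β_{i0})²` with equality only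
for `(i, n) = (i0, n0)`: this is TIP (multiply by `(4P²)²`), `n ≡ n0 mod κ`. `Pn p = qe κ r l0`,
`Pg p = (κ (E - 9j) l0, n0 e_{i0}, j e_{i0})`, `n0 = r + κ l0`, and for `pt ρ = ist p` the
coefficient is `v = ρ^{l0} C(j, β) C(n0, α)`. The last hypothesis of DET: for each `i` the columns with
`ist p = i` are the points of the `i`-th subset in the statement, and the factor `ρ^{l0} ≠ 0` can be moved
into the unknown: this is `Indep M`. (`Ring.choose (j : ℤ) β = C(j, β)` for `j ≥ 0`.) -/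
def S_BLK : Prop := ∀ (k : Type) [Field k] [CharZero k] (b κ' P M : ℕ) (z : kˣ) (x y : Fin b → kˣ)
  (ρ : ℚ) (E : ℤ) (C : Finset (ℤ × ℤ)), 1 ≤ b → 1 ≤ κ' → 1 ≤ P → ρ ≠ 0 → Gen z x y →
  (∀ p ∈ C, 0 ≤ p.1 ∧ (2 * (P : ℤ) - 1) * p.1 ≤ 2 * (P : ℤ) ^ 2 * p.2 ∧
    2 * (P : ℤ) ^ 2 * (p.2 - b * κ') < (2 * (P : ℤ) - 1) * p.1) →
  (∀ i : ℕ, i < b → Indep M (C.filter fun p =>
    (2 * (P : ℤ) - 1) * p.1 + 2 * (P : ℤ) ^ 2 * κ' * i ≤ 2 * (P : ℤ) ^ 2 * p.2 ∧
    2 * (P : ℤ) ^ 2 * (p.2 - κ' * (i + 1)) < (2 * (P : ℤ) - 1) * p.1)) →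
  ∀ a : ℤ × ℤ → KK k,
    (∀ (i : Fin b) (α β : ℕ), α + β < M → ∑ p ∈ C,
      (algebraMap (OO k) (KK k) (PowerSeries.C ((y i : kˣ) : k))) ^ p.1.toNat *
        ((p.1.toNat.choose β : ℕ) : KK k) * (a p * PowerSeries.coeff α
          (evK (x i) (Th (b * κ') (p.2 % ((b * κ' : ℕ) : ℤ))
            ((ρ : k) * (z : k) ^ (((b * κ' : ℕ) : ℤ) * (E - 9 * p.1)))))) = 0) →
    ∀ p ∈ C, a p = 0

/-- KRA (1.2 h, hypotheses S_BLK, S_STR). The first `P R` levels of a block are injective.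
PROOF. If `P = 0` the space `Fin 0 → ..` is zero. Let `P ≥ 1`, `κ = b κ'`. Apply BLK with
`C = strip P κ (P R) 0` (`E` replaced by `E - 9 j0`), whose `i`-th part is `strip P κ' (P R) (κ' i)`,
independent by STR. The points of `C` with first coordinate `j` are the `n` with
`⌈hj⌉ ≤ n < ⌈hj⌉ + κ`: exactly one for every residue `r` mod `κ`; so a function `a : Fin (P R) → Fin κ → K`
gives `a' (j, n) = a j (n mod κ)` and the conditions of `Ker` are those of BLK. -/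
def S_KRA : Prop := ∀ (k : Type) [Field k] [CharZero k] (b κ' P R M : ℕ) (z : kˣ)
  (x y : Fin b → kˣ) (ρ : ℚ) (E : ℤ) (j0 : ℕ), 1 ≤ b → 1 ≤ κ' → 2 * κ' * P + R = 2 * M + 1 →
  ρ ≠ 0 → Gen z x y →
  finrank (KK k) (Ker M (P * R) j0
    (fun i : Fin b => algebraMap (OO k) (KK k) (PowerSeries.C ((y i : kˣ) : k)))
    (fun i j (r : Fin (b * κ')) => evK (x i) (Th (b * κ') ((r : ℕ) : ℤ)
      ((ρ : k) * (z : k) ^ (((b * κ' : ℕ) : ℤ) * (E - 9 * j)))))) = 0

/-- GEN (1 h). A field with algebraically independent elements.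
PROOF. `G = ℤ × (Fin n → ℤ) × (Fin n → ℤ)` is free abelian, so `ℚ[G]` is a domain (`UniqueSums`
instances; `NoZeroDivisors`); let `k` be its field of fractions, `z`, `x i`, `y i` the images of the basis elements
of `G`. The `mon z x y g` are the images of the basis `single g 1` of `ℚ[G]`, so they are independent
over `ℚ`. The endomorphism `(g_0, g_1, g_2) ↦ (g_0 + t ∑ g_1 i, g_1, g_2)` of `G` is injective and
induces the required `σ` (`AddMonoidAlgebra.mapDomainRingHom`, then `IsFractionRing.lift` or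
`IsFractionRing.map`). Last clause: `Gen` for `b ≤ n` of the elements by restriction to a
subfamily of monomials (extension by zero `Fin b → ℤ` to `Fin n → ℤ`). -/
def S_GEN : Prop := ∀ n : ℕ, ∃ (k : Type) (_ : Field k) (_ : CharZero k) (z : kˣ)
  (x y : Fin n → kˣ), Gen z x y ∧
    (∀ t : ℤ, ∃ σ : k →+* k, σ z = z ∧ (∀ i, σ (x i) = x i * z ^ t) ∧ ∀ i, σ (y i) = y i) ∧
    ∀ (b : ℕ) (hb : b ≤ n), Gen z (fun i : Fin b => x (Fin.castLE hb i))
      (fun i : Fin b => y (Fin.castLE hb i))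

/-! ### Part 4: numerical lemmas -/

/-- LSS (1 h). The loss.
PROOF. Let `r = (2u+1) mod 4k`, `Q = (2u+1) / 4k`. If `r ≤ 4k - r` take `P = Q`: `2u + 1 - 4kP = r`; if
`r > 4k - r` take `P = Q + 1`: `4kP - (2u+1) = 4k - r`. In both cases `(2u+1 - 4kP)² = r'²`,
`r' = min r (4k - r)` odd, and `R = 2u + 1 - 2kP > 0`: in the second case `2kP = (2u+1 + 4k - r)/2 < 2u+1` iff
`4k - r < 2u + 1`, true because `4k - r < r ≤ 2u + 1`. `k P R = k P (2u+1-2kP)`, and
`8 k P (2u+1-2kP) + (2u+1-4kP)² - 1 = (2u+1)² - 1 = 4 u (u+1)`. Second clause: `r' ≤ 2k`, odd, so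
`r' ≤ 2k - 1` and `(r'² - 1)/8 ≤ ((2k-1)² - 1)/8 = k (k-1)/2`. -/
def S_LSS : Prop := ∀ k u : ℕ, 1 ≤ k →
  (∃ P R : ℕ, 2 * k * P + R = 2 * u + 1 ∧ k * (P * R) + loss k u = (u + 1).choose 2) ∧
  loss k u ≤ k * (k - 1) / 2 ∧ loss 1 u = 0

/-- CPA (1.2 h). The first numerical inequality.
PROOF. `V = C(d+2,2) - ∑_{i<9} C(m_i+1,2)`, `2 V = d² + 3d + 2 - ∑ m_i² - ∑ m_i = L² + κ + 2` with
`L² = d² - ∑ m_i²`. Let `μ = m_8` (the ninth), `m'_i = m_i - μ`, `d' = d - 3μ ≥ 0`, `κ = 3d' - ∑ m'_i`,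
`L² = L'² + 2 μ κ`. Let `j = lam - 1 = min (d/3, (d - m_0)/2)`, `j' = j - μ`, so `3 j' ≤ d'`, `2 j' ≤ d' - m'_0`,
`j' ≥ 0`. CLAIM `j'² ≤ L'²`. Put `a_0 = d' - m'_0 - m'_1 - m'_2`, `a_1 = m'_0 - m'_1`, `a_2 = m'_1 - m'_2`,
`A = m'_2`, all `≥ 0`: `d' = a_0 + a_1 + 2a_2 + 3A`, `m'_0 = a_1 + a_2 + A`, `m'_1 = a_2 + A`, and
`m'_i ≤ A` for `2 ≤ i ≤ 7`, `m'_8 = 0`. So `L'² ≥ d'² - (a_1+a_2+A)² - (a_2+A)² - 6A²
= a_0² + 2a_0a_1 + 4a_0a_2 + 6a_0A + 2a_1a_2 + 4a_1A + 2a_2² + 8a_2A + A²` [check: `d'² = a_0² + a_1² + 4a_2² + 9A²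
+ 2a_0a_1 + 4a_0a_2 + 6a_0A + 4a_1a_2 + 6a_1A + 12a_2A`, minus `a_1² + a_2² + A² + 2a_1a_2 + 2a_1A + 2a_2A`,
minus `a_2² + 2a_2A + A²`, minus `6A²`]. And `2 j' ≤ d' - m'_0 = a_0 + a_2 + 2A`, so
`4 j'² ≤ (a_0 + a_2 + 2A)² ≤ 4 L'²` coefficientwise. Hence `L'² + κ² ≥ j'² + κ² ≥ 2 κ j'`, so
`2V = L'² + 2μκ + κ + 2 ≥ 2κ j' - κ² + 2μκ + κ + 2 = 2κ j - κ² + κ + 2`, i.e.
`2 κ (j + 1) ≤ 2V + κ² + κ - 2`. -/
def S_CPA : Prop := ∀ (m : ℕ → ℕ) (d κ : ℕ), Antitone m → m 0 + m 1 + m 2 ≤ d → 1 ≤ κ →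
  κ + ∑ i ∈ Finset.range 9, m i = 3 * d →
  2 * ((κ : ℤ) * (min (d / 3) ((d - m 0) / 2) + 1 : ℕ)) ≤
    2 * ((Nat.choose (d + 2) 2 : ℤ) - ∑ i ∈ Finset.range 9, (Nat.choose (m i + 1) 2 : ℤ)) +
      (κ : ℤ) ^ 2 + κ - 2

/-- CPB (0.7 h). The second numerical inequality.
PROOF. Notation of CPA. `2V - 2κμ = L'² + κ + 2` and `L'² ≤ κ²`: with `S = ∑_{i<8} m'_i`, `Q = ∑_{i<8} m'_i²
≥ S²/8` (Cauchy-Schwarz), `κ = 3d' - S`: `κ² - L'² = (3d' - S)² - d'² + Q ≥ 8d'² - 6d'S + (9/8) S² =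
8 (d' - (3/8) S)² ≥ 0`. -/
def S_CPB : Prop := ∀ (m : ℕ → ℕ) (d κ : ℕ), Antitone m → m 0 + m 1 + m 2 ≤ d →
  κ + ∑ i ∈ Finset.range 9, m i = 3 * d →
  2 * ((Nat.choose (d + 2) 2 : ℤ) - ∑ i ∈ Finset.range 9, (Nat.choose (m i + 1) 2 : ℤ)) ≤
    2 * (κ : ℤ) * m 8 + (κ : ℤ) ^ 2 + κ + 2

/-! ### Part 5: exactness on the nonempty side -/

/-- TWO (1.5 h, hypotheses S_VAA, S_VAB). Two points.
PROOF. Let `ℓ` be a nonzero linear form vanishing at `p` and `p'` (linearly independent vectors). For a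
form `z` of degree `e` let `res z = z (u p + v p') ∈ K[u, v]`, homogeneous of degree `e`; if `z` has
multiplicity `≥ a` at `p` then `v^a ∣ res z`, and `u^b ∣ res z` (S_VAB (4) with `χ : X_r ↦ u p_r + v p'_r`
dehomogenized: for `p` set `u = 1` and `I = (v)`); if `res z = 0` then `ℓ ∣ z` (choose coordinates
with `p, p'` the first two basis vectors, or: `ℓ` is prime and generates the kernel). Put
`f(e, a, b) = dim {z ∈ forms of degree e, mult a at p, mult b at p'}`; as `ℓ` has multiplicity exactly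
`1` at `p` and `p'`, `f(e, a, b) ≤ (e + 1 - a - b)^+ + f(e - 1, (a-1)^+, (b-1)^+)` (S_VAA (2)),
`f(-1, ..) = 0`. By induction on `e`, if `a + b ≤ e + 1` then `f(e,a,b) ≤ C(e+2,2) - C(a+1,2) - C(b+1,2)`:
the condition is inherited (`(a-1)^+ + (b-1)^+ ≤ e`) and the right side changes by exactly
`e + 1 - a - b`. -/
def S_TWO : Prop := ∀ (K : Type) [Field K] (p p' : Fin 3 → K), LinearIndependent K ![p, p'] →
  ∀ e a b : ℕ, a + b ≤ e + 1 →
    (finrank K (Fm K e ⊓ Van p a ⊓ Van p' b : Submodule K (MvPolynomial (Fin 3) K)) : ℤ) ≤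
      (Nat.choose (e + 2) 2 : ℤ) - Nat.choose (a + 1) 2 - Nat.choose (b + 1) 2

/-- NIN (2 h, hypotheses S_TWO, S_LEV, S_DRP, S_CUV, S_VAA). Nine points on the cubic.
PROOF. Strong induction on `d`. If `m 2 = 0`: S_TWO for `P 0, P 1` (independent by S_CUV), since
`m 0 + m 1 ≤ d`. Let `m 2 ≥ 1` (so `d ≥ 3`). S_LEV with `n_i = m_i`: the kernel of `a` consists of the `cubK * z'` with
`z'` of degree `d - 3` and multiplicity `≥ m_i - 1` (truncated) at `P_i` (S_VAA (2), `cubK` has multiplicity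
exactly one at `P_i` by S_CUV), so `dim (d; m) ≤ κ + dim (d - 3; (m - 1)^+)`, `κ = 3d - ∑ m_i`. The new
system satisfies `m'_0 + m'_1 + m'_2 = m_0 + m_1 + m_2 - 3 ≤ d - 3` and, unless `m'_2 = 0` (and then it is
covered by the first case), `3 (d-3) - ∑ m'_i ≥ 1`: if `m_8 ≥ 1` this is `κ`; if `m_8 = 0` then
`3 d' ≥ 3 (m'_0 + m'_1 + m'_2) ≥ m'_0 + ... + m'_7 + m'_2` (`m'_8 = 0`). The right side
`V` changes by exactly `3 d - ∑ m_i` (`C(d+2,2) - C(d-1,2) = 3d`, `C(m+1,2) - C((m-1)^+ + 1, 2) = m`). -/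
def S_NIN : Prop := ∀ (k : Type) [Field k] [CharZero k] (α β γ : OO k), IsCub α β γ →
  ∀ (w : Fin 9 → kˣ), Function.Injective w → ∀ (P : ℕ → Fin 3 → KK k),
  (∀ i : Fin 9, P i = fun r => PowerSeries.constantCoeff (ph (w i) r)) →
  ∀ (m : ℕ → ℕ) (d : ℕ), Antitone m → m 0 + m 1 + m 2 ≤ d →
  (∑ i ∈ Finset.range 9, m i < 3 * d ∨ m 2 = 0) →
    (finrank (KK k) (WW P m ∅ d 0) : ℤ) ≤
      (Nat.choose (d + 2) 2 : ℤ) - ∑ i ∈ Finset.range 9, (Nat.choose (m i + 1) 2 : ℤ)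

/-- SGR (1 h). Strict growth, abstract form.
PROOF. Let `R_n` be the span of the `col j r`, `j < n`. If `R_{n+1} = R_n` for some `n` then `R_{n'} = R_n` for all
`n' ≥ n` (hypothesis), so `R_n ⊇ R_{n'} = ` everything for large `n'` by the second hypothesis.
Hence `dim R_{n+1} ≥ dim R_n + 1` as long as `R_n ≠ ⊤`, and
`dim R_{ℓ + t} ≥ min (D, κ ℓ + t)`, where `D = dim U`. For the kernel of the synthesis map
`(Fin lam → Fin κ → K) → U`: `dim ker = κ lam - dim R_lam`. -/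
def S_SGR : Prop := ∀ (K : Type) [Field K] (U : Type) [AddCommGroup U] [Module K U]
  [FiniteDimensional K U] (κ ℓ lam w : ℕ) (col : ℕ → Fin κ → U),
  (∀ n, (∀ r, col n r ∈ Submodule.span K {u | ∃ j < n, ∃ r', u = col j r'}) →
    ∀ r, col (n + 1) r ∈ Submodule.span K {u | ∃ j < n, ∃ r', u = col j r'}) →
  Submodule.span K (Set.range fun p : ℕ × Fin κ => col p.1 p.2) = ⊤ →
  (∀ a : Fin ℓ → Fin κ → K, ∑ j : Fin ℓ, ∑ r, a j r • col j r = 0 → a = 0) →
  finrank K U ≤ κ * ℓ + w → ℓ + w ≤ lam →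
  finrank K (LinearMap.ker (∑ j : Fin lam, ∑ r : Fin κ,
    ((LinearMap.proj r ∘ₗ LinearMap.proj j : (Fin lam → Fin κ → K) →ₗ[K] K)).smulRight
      (col j r))) + finrank K U ≤ κ * lam

/-- TRL (0.8 h, hypotheses S_EVC, S_THC). Translation.
PROOF. By EVC and THC the coefficient of `s^α` of `evK x (Th κ r c)` is the image of the series in `q`
with coefficient `∑_{l : qe κ r l = N} c^l x^{r + κ l} C(r + κ l, α)` at `q^N`. With `c H^{-κ}`:
`(c H^{-κ})^l x^{r + κ l} = H^r c^l (x / H)^{r + κ l}`. -/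
def S_TRL : Prop := ∀ (k : Type) [Field k] (κ : ℕ) (r : ℤ) (c : k) (x H : kˣ) (α : ℕ), c ≠ 0 →
  0 ≤ r → r < κ →
  PowerSeries.coeff α (evK x (Th κ r (c * ((H⁻¹ : kˣ) : k) ^ κ))) =
    algebraMap (OO k) (KK k) (PowerSeries.C ((H ^ r : kˣ) : k)) *
      PowerSeries.coeff α (evK (x * H⁻¹) (Th κ r c))

/-- SIG (0.8 h, hypotheses S_EVC, S_THC). Endomorphisms.
PROOF. `PowerSeries.map σ : OO k → OO k` is injective, so it extends to the fraction field
(`IsFractionRing.lift` or `IsLocalization.map`). The formula on coefficients as in TRL. -/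
def S_SIG : Prop := ∀ (k : Type) [Field k] (σ : k →+* k), ∃ σK : KK k →+* KK k,
  (∀ a : k, σK (algebraMap (OO k) (KK k) (PowerSeries.C a)) =
    algebraMap (OO k) (KK k) (PowerSeries.C (σ a))) ∧
  ∀ (κ α : ℕ) (r : ℤ) (c : k) (x x' : kˣ), (x' : k) = σ x → c ≠ 0 → 0 ≤ r → r < κ →
    σK (PowerSeries.coeff α (evK x (Th κ r c))) = PowerSeries.coeff α (evK x' (Th κ r (σ c)))

/-- KRB (1.5 h, hypotheses S_TRL, S_SIG). Stationary spans stay stationary.
PROOF. `c j = ρ z^{κ (E - 9 j)}`, `H = z^9`, `σ z = z`, `σ x_i = x_i / H`, `σ y_i = y_i` (hypothesis), `σK` from SIG.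
`col n r = ∑_{j<n, r'} t_{j,r'} col j r'` for every `r`, `t = t(r) ∈ KK k`. Let `col' j r` be the column
with `x_i / H` in the place of `x_i` (same `c`). Applying `σK` to the entries: `col' n r = ∑ σK(t_{j,r'}) col' j r'`.
By TRL (`c (j0 + j + 1) = c (j0 + j) H^{-κ}`) and `C(j+1, β) = C(j, β) + C(j, β - 1)`:
`col (j+1) r = H^r A (col' j r)` with the linear map `(A f)(i, α, β) = y_i (f(i,α,β) + f(i,α,β-1))`
(second term `0` for `β = 0`). Hence `col (n+1) r = ∑ σK(t_{j,r'}) H^{r - r'} col (j+1) r'`, in the span of the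
`col j r'`, `1 ≤ j ≤ n`, which is in the span of those with `j < n` by hypothesis. -/
def S_KRB : Prop := ∀ (k : Type) [Field k] [CharZero k] (b κ M : ℕ) (z : kˣ) (x y : Fin b → kˣ)
  (ρ : ℚ) (E : ℤ) (j0 : ℕ) (σ : k →+* k), 1 ≤ κ → ρ ≠ 0 → σ z = z →
  (∀ i, σ (x i) = x i * (z : k) ^ (-9 : ℤ)) → (∀ i, σ (y i) = y i) → ∀ n : ℕ,
  (∀ r, colv M j0 (fun i : Fin b => algebraMap (OO k) (KK k) (PowerSeries.C ((y i : kˣ) : k)))
      (fun i j (r : Fin κ) => evK (x i) (Th κ ((r : ℕ) : ℤ)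
        ((ρ : k) * (z : k) ^ ((κ : ℤ) * (E - 9 * j))))) n r ∈
    Submodule.span (KK k) {u | ∃ j < n, ∃ r', u = colv M j0
      (fun i : Fin b => algebraMap (OO k) (KK k) (PowerSeries.C ((y i : kˣ) : k)))
      (fun i j (r : Fin κ) => evK (x i) (Th κ ((r : ℕ) : ℤ)
        ((ρ : k) * (z : k) ^ ((κ : ℤ) * (E - 9 * j))))) j r'}) →
  ∀ r, colv M j0 (fun i : Fin b => algebraMap (OO k) (KK k) (PowerSeries.C ((y i : kˣ) : k)))
      (fun i j (r : Fin κ) => evK (x i) (Th κ ((r : ℕ) : ℤ)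
        ((ρ : k) * (z : k) ^ ((κ : ℤ) * (E - 9 * j))))) (n + 1) r ∈
    Submodule.span (KK k) {u | ∃ j < n, ∃ r', u = colv M j0
      (fun i : Fin b => algebraMap (OO k) (KK k) (PowerSeries.C ((y i : kˣ) : k)))
      (fun i j (r : Fin κ) => evK (x i) (Th κ ((r : ℕ) : ℤ)
        ((ρ : k) * (z : k) ^ ((κ : ℤ) * (E - 9 * j))))) j r'}

/-- KRC (1.5 h, hypotheses S_BLK, S_STR, S_LSS). All columns span.
PROOF. `M ≥ 1` (otherwise trivial). LSS with `k = 1`, `u = M` gives `P, R` with `2 P + R = 2 M + 1`,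
`P R = C(M+1, 2)`, `P ≥ 1` (if `P = 0` then `0 + 0 = C(M+1,2)`). Apply BLK with this `P` (and `E - 9 j0` for `E`) and
`C = ⋃_{i<b} strip P 1 (P R) (κ' i)`: a point `(j, n)` of the `i`-th strip satisfies `hj ≤ n - κ' i < hj + 1`, so
it lies in the `i`-th window `hj + κ' i ≤ n < hj + κ' (i + 1)` (the windows are disjoint), so the `i`-th
part of `C` is this strip, `Indep M` by STR; and in the strip of thickness `b κ'`. Each strip has `P R` points
(one for each `j`), so `C` has `b C(M+1,2) = dim` points, and the columns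
`colv .. j (n mod κ)` for `(j, n) ∈ C` (first coordinate `j < P R`) are linearly independent by BLK: they
are a basis of `Idx b M → KK k`. -/
def S_KRC : Prop := ∀ (k : Type) [Field k] [CharZero k] (b κ' M : ℕ) (z : kˣ) (x y : Fin b → kˣ)
  (ρ : ℚ) (E : ℤ) (j0 : ℕ), 1 ≤ b → 1 ≤ κ' → ρ ≠ 0 → Gen z x y →
  Submodule.span (KK k) (Set.range fun p : ℕ × Fin (b * κ') => colv M j0
    (fun i : Fin b => algebraMap (OO k) (KK k) (PowerSeries.C ((y i : kˣ) : k)))
    (fun i j (r : Fin (b * κ')) => evK (x i) (Th (b * κ') ((r : ℕ) : ℤ)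
      ((ρ : k) * (z : k) ^ (((b * κ' : ℕ) : ℤ) * (E - 9 * j))))) p.1 p.2) = ⊤

/-- KRD (1 h, hypotheses S_SGR, S_KRA, S_KRB, S_KRC). The number of conditions is exact on enough levels.
PROOF. S_SGR with `U = Idx b M → KK k` (dimension `b * C(M+1,2)`), `ℓ = P R`, `w := b w'`, `κ := b κ'`; the
kernel of the synthesis map of the columns `colv` is `Ker M lam j0 ..` (same equations). -/
def S_KRD : Prop := ∀ (k : Type) [Field k] [CharZero k] (b κ' P R M w' lam : ℕ) (z : kˣ)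
  (x y : Fin b → kˣ) (ρ : ℚ) (E : ℤ) (j0 : ℕ) (σ : k →+* k), 1 ≤ b → 1 ≤ κ' →
  2 * κ' * P + R = 2 * M + 1 → κ' * (P * R) + w' = (M + 1).choose 2 → P * R + b * w' ≤ lam →
  ρ ≠ 0 → Gen z x y → σ z = z → (∀ i, σ (x i) = x i * (z : k) ^ (-9 : ℤ)) → (∀ i, σ (y i) = y i) →
  finrank (KK k) (Ker M lam j0
    (fun i : Fin b => algebraMap (OO k) (KK k) (PowerSeries.C ((y i : kˣ) : k)))
    (fun i j (r : Fin (b * κ')) => evK (x i) (Th (b * κ') ((r : ℕ) : ℤ)
      ((ρ : k) * (z : k) ^ (((b * κ' : ℕ) : ℤ) * (E - 9 * j)))))) + b * (M + 1).choose 2 ≤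
    b * κ' * lam

/-- WPT (1.2 h). The nine parameters.
PROOF. `a = (2, 1/2, 3, 1/3, 5, 1/5, 7, 1/7, -1)`, distinct rationals with `∏ (-a_i) = 1`; `w_i = a_i z^κ`. Then
`∏ (-w_i)^{m_i - j} = ∏ (-a_i)^{m_i} * (∏ (-a_i))^{-j} * z^{κ (∑ m_i - 9 j)}`, so `ρ = ∏ (-a_i)^{m_i}`. If
`x_l = a_i z^κ` then the monomials `x_l` and `z^κ` would be dependent over `ℚ`, against `Gen`. -/
def S_WPT : Prop := ∀ (k : Type) [Field k] [CharZero k] (z : kˣ) (κ : ℕ), 1 ≤ κ →
  ∃ w : Fin 9 → kˣ, Function.Injective w ∧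
    (∀ m : ℕ → ℕ, ∃ ρ : ℚ, ρ ≠ 0 ∧ ∀ j : ℕ,
      ∏ i : Fin 9, (-((w i : kˣ) : k)) ^ ((m (i : ℕ) : ℤ) - j) =
        (ρ : k) * (z : k) ^ ((κ : ℤ) * (((∑ i ∈ Finset.range 9, m i : ℕ) : ℤ) - 9 * j))) ∧
    ∀ (b : ℕ) (x y : Fin b → kˣ), Gen z x y → ∀ (l : Fin b) (i : Fin 9), x l ≠ w i

/-- BSE (1 h, hypotheses S_DRP, S_VAB, S_VAA). The nine points alone.
PROOF. Let `lam = min (d/3) ((d - m 0)/2) + 1`. If `j ≥ lam` then `3 j > d` (the space is `⊥`) or
`2 j > d - m 0`, and then `d - 3 j < m 0 - j`: a form of degree `d - 3 j` with multiplicity `≥ m 0 - j` at `P 0`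
is `0` (S_VAB (1)). If `j < lam`: LevHyp (with `b = 0`) gives `a` on `WW P m ∅ d j` whose kernel consists of
multiples `g z'`, `z' ∈ WW P m ∅ d (j + 1)` (S_DRP), so `dim (level j) ≤ κ + dim (level j + 1)`.
Descending induction. -/
def S_BSE : Prop := ∀ (K : Type) [Field K] (g : MvPolynomial (Fin 3) K) (P : ℕ → Fin 3 → K)
  (m : ℕ → ℕ) (d κ : ℕ) (h : Fin 0 → Fin 3 → PowerSeries K) (Θ B : Fin 0 → PowerSeries K)
  (S : Fin 0 → ℕ → Fin κ → PowerSeries K), g.IsHomogeneous 3 →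
  (∀ i < 9, g ∈ Van (P i) 1 ∧ g ∉ Van (P i) 2) → m 0 ≤ d → LevHyp g P m d κ h Θ B S →
  ∀ j, finrank K (WW P m ∅ d j) ≤ κ * (min (d / 3) ((d - m 0) / 2) + 1 - j)

end Pool.Agent.Helper97.Tate
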