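import Pool.Agent.Helper97.Tate.Data

/-!
The bound over the field `k((q))`.
-/

set_option autoImplicit false

noncomputable section

namespace Pool.Agent.Helper97.Tate

open Module

theorem mem_Fm {K : Type} [Field K] {n : ℤ} {z : MvPolynomial (Fin 3) K} (hn : 0 ≤ n) :
    z ∈ Fm K n ↔ z.IsHomogeneous n.toNat := by
  rw [Fm, if_pos hn, MvPolynomial.mem_homogeneousSubmodule]

/-- from the state of all the points of multiplicity at least two to all the points -/
theorem finish (hVAA : S_VAA) (hSIM : S_SIM) {K : Type} [Field K] [Infinite K]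
    {g : MvPolynomial (Fin 3) K} {P0 : ℕ → Fin 3 → K} {m : ℕ → ℕ} {d s : ℕ}
    (hs : ∀ i, s ≤ i → m i = 0) {Λ k0 N : ℕ}
    (hS : State g P0 m d ((Finset.Ico 9 s).filter fun i => 2 ≤ m i) Λ k0)
    (hN : finrank K (WW P0 m ∅ d Λ) + k0 ≤ N + ((Finset.Ico 9 s).filter fun i => m i = 1).card)
    (hfd : ∀ P : ℕ → Fin 3 → K, FiniteDimensional K
      (WW P m ((Finset.Ico 9 s).filter fun i => 2 ≤ m i) d 0)) :
    ∃ P : Fin s → Fin 3 → K,
      finrank K (Fm K d ⊓ ⨅ i, Van (P i) (m i) : Submodule K (MvPolynomial (Fin 3) K)) ≤ N := by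
  obtain ⟨P, -, -, hP⟩ := hS
  have := hfd P
  obtain ⟨P', hP'1, hP'2⟩ := hSIM K (WW P m ((Finset.Ico 9 s).filter fun i => 2 ≤ m i) d 0) P
    ((Finset.Ico 9 s).filter fun i => m i = 1)
  refine ⟨fun i => P' i, ?_⟩
  have h1 : (Fm K d ⊓ ⨅ i : Fin s, Van (P' i) (m i) : Submodule K (MvPolynomial (Fin 3) K)) ≤
      WW P m ((Finset.Ico 9 s).filter fun i => 2 ≤ m i) d 0 ⊓
        ⨅ i ∈ (Finset.Ico 9 s).filter fun i => m i = 1, Van (P' i) 1 := by
    intro z hz
    obtain ⟨hz1, hz2⟩ := Submodule.mem_inf.1 hz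
    rw [Submodule.mem_iInf] at hz2
    have hz3 : ∀ i, m i ≠ 1 ∨ i < 9 → z ∈ Van (P i) (m i) := by
      intro i hi
      by_cases his : i < s
      · have h2 := hz2 ⟨i, his⟩
        have h3 : P' i = P i := by
          apply hP'1
          rw [Finset.mem_filter, Finset.mem_Ico]
          omega
        simp only at h2
        rwa [h3] at h2
      · rw [hs i (by omega)]
        exact (hVAA K (P i)).2.2.2 z
    refine Submodule.mem_inf.2 ⟨Submodule.mem_inf.2 ⟨Submodule.mem_inf.2 ⟨?_, ?_⟩, ?_⟩, ?_⟩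
    · have e : (d : ℤ) - 3 * ((0 : ℕ) : ℤ) = d := by simp
      rw [e]
      exact hz1
    · rw [Submodule.mem_iInf]
      intro i
      rw [Submodule.mem_iInf]
      intro hi
      rw [Finset.mem_range] at hi
      exact hz3 i (Or.inr hi)
    · rw [Submodule.mem_iInf]
      intro i
      rw [Submodule.mem_iInf]
      intro hi
      rw [Finset.mem_filter] at hi
      exact hz3 i (Or.inl (by omega))
    · rw [Submodule.mem_iInf]
      intro i
      rw [Submodule.mem_iInf]
      intro hi
      rw [Finset.mem_filter, Finset.mem_Ico] at hi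
      have h2 := hz2 ⟨i, hi.1.2⟩
      simp only at h2
      rwa [hi.2] at h2
  have hfd2 : FiniteDimensional K (WW P m ((Finset.Ico 9 s).filter fun i => 2 ≤ m i) d 0 ⊓
        ⨅ i ∈ (Finset.Ico 9 s).filter fun i => m i = 1, Van (P' i) 1 :
          Submodule K (MvPolynomial (Fin 3) K)) :=
    Submodule.finiteDimensional_of_le inf_le_left
  have h2 := Submodule.finrank_mono h1
  have h3 := hP 0
  rw [zero_add] at h3
  refine le_trans h2 ?_
  omega

theorem charZero_KK (k : Type) [Field k] [CharZero k] : CharZero (KK k) := by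
  have h1 : CharZero (OO k) := by
    refine ⟨fun a b h => ?_⟩
    have h2 := congrArg PowerSeries.constantCoeff h
    simp only [map_natCast] at h2
    exact_mod_cast h2
  exact charZero_of_injective_algebraMap (IsFractionRing.injective (OO k) (KK k))

/-- the system of level `L` is a system of the same kind -/
theorem WW_level {K : Type} [Field K] (P : ℕ → Fin 3 → K) (m : ℕ → ℕ) (d L : ℕ) (hL : 3 * L ≤ d) :
    WW P m ∅ d L = WW P (fun i => m i - L) ∅ (d - 3 * L) 0 := by
  unfold WW
  have e : (d : ℤ) - 3 * (L : ℤ) = ((d - 3 * L : ℕ) : ℤ) - 3 * ((0 : ℕ) : ℤ) := by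
    push_cast [Nat.cast_sub hL]
    ring
  rw [e]
  simp only [Nat.sub_zero, Finset.notMem_empty, iInf_false]

end Pool.Agent.Helper97.Tate
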