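import Pool.Agent.Helper97.Tate.Main
import Pool.Agent.Helper18.ShghGen

/-!
The final theorem over the complex numbers from the goals.
-/

set_option autoImplicit false

noncomputable section

namespace Pool.Agent.Helper97.Tate

open Module

theorem FS_le (s : ℕ) (m : ℕ → ℕ) (d : ℕ) (P : Fin s → Fin 3 → ℂ) :
    Helper18.Shgh.FS s m d P ≤ Fm ℂ d ⊓ ⨅ i, Van (P i) (m i) := by
  intro z hz
  obtain ⟨h1, h2⟩ := Submodule.mem_inf.1 hz
  rw [Submodule.mem_iInf] at h2
  refine Submodule.mem_inf.2 ⟨?_, ?_⟩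
  · rw [mem_Fm (by positivity)]
    simpa using h1
  · rw [Submodule.mem_iInf]
    intro i
    have h3 := Ideal.pow_right_mono (Helper18.Shgh.LI_le_mI (P i)) (m i) (h2 i)
    exact Helper18.Shgh.mem_mI_pow.1 h3

theorem trans_C (hTRK : S_TRK) {s : ℕ} {m : ℕ → ℕ} {d N : ℕ} (h : Up s m d N) :
    ∃ G : MvPolynomial (Fin s × Fin 3) ℂ, G ≠ 0 ∧ ∀ P : Fin s → Fin 3 → ℂ,
      MvPolynomial.eval (fun ij : Fin s × Fin 3 => P ij.1 ij.2) G ≠ 0 →
      finrank ℂ (Helper18.Shgh.FS s m d P) ≤ N := by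
  obtain ⟨K, _, _, P, hP⟩ := h
  obtain ⟨G, hG0, hG⟩ := hTRK K s d N (fun i => m i) P hP
  refine ⟨G, hG0, fun Q hQ => ?_⟩
  have h1 := hG Q hQ
  have h2 : Fm ℂ d ⊓ ⨅ i, Van (Q i) (m i) ≤
      MvPolynomial.homogeneousSubmodule (Fin 3) ℂ d := by
    intro z hz
    have h3 := (Submodule.mem_inf.1 hz).1
    rw [mem_Fm (by positivity)] at h3
    rw [MvPolynomial.mem_homogeneousSubmodule]
    simpa using h3
  have h4 : FiniteDimensional ℂ (Fm ℂ d ⊓ ⨅ i, Van (Q i) (m i) :
      Submodule ℂ (MvPolynomial (Fin 3) ℂ)) := Submodule.finiteDimensional_of_le h2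
  exact (Submodule.finrank_mono (FS_le s m d Q)).trans h1

theorem loss_le (k u : ℕ) (hk : 1 ≤ k) (p : ℤ) :
    8 * (loss k u : ℤ) ≤ (2 * (u : ℤ) + 1 - 4 * k * p) ^ 2 - 1 := by
  set r := (2 * u + 1) % (4 * k) with hr
  set r' := min r (4 * k - r) with hr'
  have hrlt : r < 4 * k := Nat.mod_lt _ (by omega)
  have h1 : loss k u = (r' ^ 2 - 1) / 8 := rfl
  obtain ⟨Q, hQ⟩ : ∃ Q : ℕ, 2 * u + 1 = 4 * k * Q + r :=
    ⟨(2 * u + 1) / (4 * k), (Nat.div_add_mod _ _).symm⟩
  have hodd : r % 2 = 1 := by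
    have h2 : (4 * k * Q) % 2 = 0 := by
      have : 4 * k * Q = 2 * (2 * k * Q) := by ring
      omega
    omega
  have hr1 : 1 ≤ r' := by
    rw [hr']
    omega
  have h3 : 8 * ((r' ^ 2 - 1) / 8) ≤ r' ^ 2 - 1 := Nat.mul_div_le _ _
  have h4 : 1 ≤ r' ^ 2 := Nat.one_le_pow _ _ hr1
  have h5 : 8 * (loss k u : ℤ) ≤ (r' : ℤ) ^ 2 - 1 := by
    rw [h1]
    have : 8 * ((r' ^ 2 - 1) / 8) + 1 ≤ r' ^ 2 := by omega
    have h6 : ((8 * ((r' ^ 2 - 1) / 8) + 1 : ℕ) : ℤ) ≤ ((r' ^ 2 : ℕ) : ℤ) := by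
      exact_mod_cast this
    push_cast at h6 ⊢
    linarith
  have h6 : (r' : ℤ) ≤ |2 * (u : ℤ) + 1 - 4 * k * p| := by
    have h7 : 2 * (u : ℤ) + 1 - 4 * k * p = r + 4 * k * (Q - p) := by
      have : (2 * (u : ℤ) + 1) = 4 * k * Q + r := by exact_mod_cast hQ
      rw [this]
      ring
    rw [h7]
    rcases le_or_gt p Q with hp | hp
    · have h8 : (0 : ℤ) ≤ 4 * k * (Q - p) := by
        apply mul_nonneg (by positivity)
        linarith
      have h9 : (r' : ℤ) ≤ r := by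
        rw [hr']
        exact_mod_cast min_le_left _ _
      refine le_trans ?_ (le_abs_self _)
      linarith
    · have h8 : 4 * (k : ℤ) ≤ 4 * k * (p - Q) := by
        have : (1 : ℤ) ≤ p - Q := by linarith
        nlinarith
      have h9 : (r' : ℤ) ≤ 4 * k - r := by
        have h10 : r' ≤ 4 * k - r := min_le_right _ _
        have h11 : ((4 * k - r : ℕ) : ℤ) = 4 * k - r := by
          push_cast [Nat.cast_sub hrlt.le]
          ring
        rw [← h11]
        exact_mod_cast h10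
      refine le_trans ?_ (neg_le_abs _)
      linarith
  have h7 : (r' : ℤ) ^ 2 ≤ (2 * (u : ℤ) + 1 - 4 * k * p) ^ 2 := by
    rw [← sq_abs (2 * (u : ℤ) + 1 - 4 * k * p)]
    exact pow_le_pow_left₀ (by positivity) h6 2
  linarith

theorem final (G : AllGoals) :
    ∀ (s : ℕ) (m b : ℕ → ℕ) (d κ : ℕ), Antitone m → (∀ i, s ≤ i → m i = 0) →
      m 0 + m 1 + m 2 ≤ d → 1 ≤ κ → κ + ∑ i ∈ Finset.range 9, m i = 3 * d →
      (∀ i ∈ Finset.Ico 9 s, 2 ≤ m i → b i ∣ κ ∧
        b i ∣ ((Finset.Ico 9 s).filter fun l => m l = m i ∧ b l = b i).card) →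
      ∀ (p : ℕ → ℤ) (W V T T₂ : ℤ),
      8 * W = ∑ i ∈ (Finset.Ico 9 s).filter fun i => 2 ≤ m i,
        ((2 * (m i : ℤ) + 1 - 4 * (κ / b i : ℕ) * p i) ^ 2 - 1) →
      V = (Nat.choose (d + 2) 2 : ℤ) - ∑ i ∈ Finset.range 9, (Nat.choose (m i + 1) 2 : ℤ) →
      T = ∑ i ∈ Finset.Ico 9 s, (Nat.choose (m i + 1) 2 : ℤ) →
      T₂ = ∑ i ∈ (Finset.Ico 9 s).filter fun i => 2 ≤ m i, (Nat.choose (m i + 1) 2 : ℤ) →
      ∃ G : MvPolynomial (Fin s × Fin 3) ℂ, G ≠ 0 ∧
        ∀ P : Fin s → Fin 3 → ℂ, (∀ i, P i ≠ 0) →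
          MvPolynomial.eval (fun ij : Fin s × Fin 3 => P ij.1 ij.2) G ≠ 0 →
          ∀ D : ℤ, D = finrank ℂ (Helper18.Shgh.FS s m d P) →
            (κ = 1 → D = max (V - T) 0) ∧
            V - T ≤ D ∧
            D ≤ max ((κ : ℤ) * (min (d / 3) ((d - m 0) / 2) + 1 : ℕ) - T + W) 0 ∧
            2 * D ≤ max (2 * (V - T + W) + (κ : ℤ) ^ 2 + κ - 2) 0 ∧
            (((κ : ℤ) * (min (d / 3) ((d - m 0) / 2) + 1 : ℕ) + W ≤ T ∨
                T₂ + (κ - 1) * W ≤ κ * m 8 ∨
                2 * (T₂ + (κ - 1) * W) + (κ : ℤ) ^ 2 + κ + 2 ≤ 2 * V) →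
              D = max (V - T) 0) := by
  intro s m b d κ hm hs hd hκ hκd hb p W V T T₂ hW hV hT hT₂
  have hb' : ∀ i ∈ E2 s m, b i ∣ κ ∧
      b i ∣ ((E2 s m).filter fun l => m l = m i ∧ b l = b i).card := by
    intro i hi
    obtain ⟨hi1, hi2⟩ := Finset.mem_filter.1 hi
    obtain ⟨h1, h2⟩ := hb i hi1 hi2
    refine ⟨h1, ?_⟩
    have h3 : (E2 s m).filter (fun l => m l = m i ∧ b l = b i) =
        (Finset.Ico 9 s).filter fun l => m l = m i ∧ b l = b i := by
      ext l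
      simp only [E2, Finset.mem_filter]
      constructor
      · rintro ⟨⟨h4, -⟩, h5⟩
        exact ⟨h4, h5⟩
      · rintro ⟨h4, h5⟩
        exact ⟨⟨h4, by omega⟩, h5⟩
    rw [h3]
    exact h2
  obtain ⟨⟨ΛA, hA1, hA2⟩, ⟨ΛB, hB1, hB2⟩⟩ := kmain G s m b d κ hm hs hd hκ hκd hb'
  -- numbers
  set F := (F1 s m).card with hF
  have hTF : T = T₂ + F := by
    rw [hT, hT₂, hF]
    have h1 : ∑ i ∈ Finset.Ico 9 s, (Nat.choose (m i + 1) 2 : ℤ) =
        ∑ i ∈ (Finset.Ico 9 s).filter (fun i => 2 ≤ m i), (Nat.choose (m i + 1) 2 : ℤ) +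
          ∑ i ∈ (Finset.Ico 9 s).filter (fun i => ¬ 2 ≤ m i), (Nat.choose (m i + 1) 2 : ℤ) :=
      (Finset.sum_filter_add_sum_filter_not _ _ _).symm
    rw [h1]
    congr 1
    have h2 : F1 s m ⊆ (Finset.Ico 9 s).filter (fun i => ¬ 2 ≤ m i) := by
      intro i hi
      rw [Finset.mem_filter] at hi ⊢
      exact ⟨hi.1, by omega⟩
    rw [← Finset.sum_subset h2]
    · rw [Finset.sum_congr rfl (g := fun _ => (1 : ℤ))]
      · simp
      · intro i hi
        rw [(Finset.mem_filter.1 hi).2]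
        rfl
    · intro i hi hi2
      rw [Finset.mem_filter] at hi hi2
      have h3 : m i = 0 := by
        by_contra h4
        exact hi2 ⟨hi.1, by omega⟩
      rw [h3]
      rfl
  have hdivpos : ∀ i ∈ E2 s m, 1 ≤ κ / b i := by
    intro i hi
    have h1 := (hb' i hi).1
    exact Nat.div_pos (Nat.le_of_dvd (by omega) h1)
      (Nat.pos_of_ne_zero (by rintro h2; rw [h2] at h1; simp at h1; omega))
  set W0 : ℕ := ∑ i ∈ E2 s m, loss (κ / b i) (m i) with hW0
  have hWW : (W0 : ℤ) ≤ W := by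
    have h1 : 8 * (W0 : ℤ) ≤ 8 * W := by
      rw [hW, hW0]
      push_cast
      rw [Finset.mul_sum]
      apply Finset.sum_le_sum
      intro i hi
      have := loss_le (κ / b i) (m i) (hdivpos i hi) (p i)
      push_cast at this ⊢
      exact this
    linarith
  have hlossle : ∀ i ∈ E2 s m, loss (κ / b i) (m i) ≤ (m i + 1).choose 2 := by
    intro i hi
    obtain ⟨⟨P, R, -, h2⟩, -⟩ := G.lss (κ / b i) (m i) (hdivpos i hi)
    omega
  have hA1' : (κ : ℤ) * ΛA = T₂ - W0 := by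
    have h1 : κ * ΛA + W0 = ∑ i ∈ E2 s m, (m i + 1).choose 2 := by
      rw [hA1, hW0, ← Finset.sum_add_distrib]
      apply Finset.sum_congr rfl
      intro i hi
      exact Nat.sub_add_cancel (hlossle i hi)
    have h2 : (κ : ℤ) * ΛA + W0 = ∑ i ∈ E2 s m, ((m i + 1).choose 2 : ℤ) := by
      exact_mod_cast h1
    rw [hT₂]
    linarith
  have hB1' : (κ : ℤ) * ΛB = T₂ + (κ - 1) * W0 := by
    have h1 : κ * ΛB = ∑ i ∈ E2 s m, (m i + 1).choose 2 + (κ - 1) * W0 := by
      rw [hB1, hW0, Finset.mul_sum, ← Finset.sum_add_distrib]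
    have h2 : (κ : ℤ) * ΛB = ∑ i ∈ E2 s m, ((m i + 1).choose 2 : ℤ) + ((κ - 1 : ℕ) : ℤ) * W0 := by
      exact_mod_cast h1
    rw [hT₂, h2]
    push_cast [Nat.cast_sub hκ]
    ring
  have hW00 : (0 : ℤ) ≤ W0 := by positivity
  have hκ' : (1 : ℤ) ≤ κ := by exact_mod_cast hκ
  obtain ⟨GA, hGA0, hGA⟩ := trans_C G.trk hA2
  obtain ⟨GB, hGB0, hGB⟩ : ∃ GB : MvPolynomial (Fin s × Fin 3) ℂ, GB ≠ 0 ∧
      ∀ P : Fin s → Fin 3 → ℂ,
        MvPolynomial.eval (fun ij : Fin s × Fin 3 => P ij.1 ij.2) GB ≠ 0 → ΛB ≤ m 8 →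
        (finrank ℂ (Helper18.Shgh.FS s m d P) : ℤ) ≤ max (V - T) 0 := by
    by_cases h1 : ΛB ≤ m 8
    · obtain ⟨GB, hGB0, hGB⟩ := trans_C G.trk (hB2 h1 (V - T₂).toNat (by
        rw [← hV, ← hT₂]
        exact Int.self_le_toNat _))
      refine ⟨GB, hGB0, fun P hP _ => ?_⟩
      have h2 := hGB P hP
      have h3 : (finrank ℂ (Helper18.Shgh.FS s m d P) : ℤ) ≤ (((V - T₂).toNat - F : ℕ) : ℤ) := by
        exact_mod_cast h2
      refine h3.trans ?_
      rw [hTF]
      omega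
    · exact ⟨1, one_ne_zero, fun P _ h2 => absurd h2 h1⟩
  refine ⟨GA * GB * ∏ i : Fin s, MvPolynomial.X (i, 2), ?_, ?_⟩
  · apply mul_ne_zero (mul_ne_zero hGA0 hGB0)
    rw [Finset.prod_ne_zero_iff]
    intro i _
    exact MvPolynomial.X_ne_zero _
  · intro P _ hP D hD
    rw [map_mul, map_mul, map_prod] at hP
    have hPA := left_ne_zero_of_mul (left_ne_zero_of_mul hP)
    have hPB := right_ne_zero_of_mul (left_ne_zero_of_mul hP)
    have hP2 : ∀ i, P i 2 ≠ 0 := by
      intro i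
      have h4 := (Finset.prod_ne_zero_iff.1 (right_ne_zero_of_mul hP)) i (Finset.mem_univ i)
      rwa [MvPolynomial.eval_X] at h4
    have hlow := Helper18.Shgh.lower_bound s m d P hP2
    have hD0 : 0 ≤ D := by rw [hD]; positivity
    have hVT : V - T ≤ D := by
      have h1 : ((d + 2).choose 2 : ℤ) ≤ finrank ℂ (Helper18.Shgh.FS s m d P) +
        ∑ i : Fin s, ((m (i : ℕ) + 1).choose 2 : ℤ) := by exact_mod_cast hlow
      have h2 : ∑ i : Fin s, ((m (i : ℕ) + 1).choose 2 : ℤ) =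
          ∑ i ∈ Finset.range 9, (Nat.choose (m i + 1) 2 : ℤ) +
            ∑ i ∈ Finset.Ico 9 s, (Nat.choose (m i + 1) 2 : ℤ) := by
        rw [Fin.sum_univ_eq_sum_range (fun i => ((m i + 1).choose 2 : ℤ)) s]
        have h3 : ∑ i ∈ Finset.range s, ((m i + 1).choose 2 : ℤ) =
            ∑ i ∈ Finset.range 9 ∪ Finset.Ico 9 s, ((m i + 1).choose 2 : ℤ) := by
          apply Finset.sum_subset
          · intro i hi
            rw [Finset.mem_range] at hi
            rw [Finset.mem_union, Finset.mem_range, Finset.mem_Ico]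
            omega
          · intro i _ hi
            rw [Finset.mem_range] at hi
            rw [hs i (by omega)]
            rfl
        rw [h3, Finset.sum_union]
        rw [Finset.disjoint_left]
        intro i hi hi2
        rw [Finset.mem_range] at hi
        rw [Finset.mem_Ico] at hi2
        omega
      rw [hD, hV, hT]
      linarith
    have hDA : D ≤ max ((κ : ℤ) * (min (d / 3) ((d - m 0) / 2) + 1 : ℕ) - T + W0) 0 := by
      have h1 := hGA P hPA
      set lam := min (d / 3) ((d - m 0) / 2) + 1 with hlam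
      have h2 : D ≤ ((κ * (lam - ΛA) - F : ℕ) : ℤ) := by
        rw [hD]
        exact_mod_cast h1
      have h3 : ((κ * (lam - ΛA) - F : ℕ) : ℤ) ≤ max ((κ * (lam - ΛA) : ℕ) - (F : ℤ)) 0 := by
        omega
      refine h2.trans (h3.trans ?_)
      rcases le_or_gt ΛA lam with h4 | h4
      · have h5 : ((κ * (lam - ΛA) : ℕ) : ℤ) = κ * lam - κ * ΛA := by
          push_cast [Nat.cast_sub h4]
          ring
        rw [h5, hA1', hTF]
        apply max_le_max _ le_rfl
        linarith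
      · have h5 : lam - ΛA = 0 := by omega
        rw [h5, mul_zero]
        apply max_le _ (le_max_right _ _)
        refine le_trans ?_ (le_max_right _ _)
        push_cast
        omega
    have hcap := G.cpa m d κ hm hd hκ hκd
    rw [← hV] at hcap
    have hcap2 := G.cpb m d κ hm hd hκd
    rw [← hV] at hcap2
    have hmaxVT : max (V - T) 0 ≤ D := max_le hVT hD0
    refine ⟨?_, hVT, ?_, ?_, ?_⟩
    · intro hk1
      apply le_antisymm _ hmaxVT
      refine hDA.trans ?_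
      have h1 : W0 = 0 := by
        rw [hW0]
        apply Finset.sum_eq_zero
        intro i hi
        have h2 : κ / b i = 1 := by
          have h3 := (hb' i hi).1
          rw [hk1] at h3 ⊢
          rw [Nat.dvd_one.1 h3]
        rw [h2]
        exact (G.lss 1 (m i) le_rfl).2.2
      have h3 : (κ : ℤ) = 1 := by exact_mod_cast hk1
      have h4 : (W0 : ℤ) = 0 := by exact_mod_cast h1
      rw [h3] at hcap ⊢
      rw [h4]
      apply max_le_max _ le_rfl
      linarith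
    · refine hDA.trans (max_le_max ?_ le_rfl)
      linarith
    · have h1 : 2 * D ≤ max (2 * ((κ : ℤ) * (min (d / 3) ((d - m 0) / 2) + 1 : ℕ) - T + W0)) 0 := by
        rcases le_max_iff.1 hDA with h2 | h2
        · exact le_max_of_le_left (by linarith)
        · exact le_max_of_le_right (by linarith)
      refine h1.trans (max_le_max ?_ le_rfl)
      linarith
    · intro h
      apply le_antisymm _ hmaxVT
      rcases h with h | h | h
      · refine hDA.trans ?_
        apply max_le _ (le_max_right _ _)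
        refine le_trans ?_ (le_max_right _ _)
        linarith
      · have h1 : ΛB ≤ m 8 := by
          have h2 : (κ : ℤ) * ΛB ≤ κ * m 8 := by
            rw [hB1']
            have h3 : ((κ : ℤ) - 1) * W0 ≤ (κ - 1) * W :=
              mul_le_mul_of_nonneg_left hWW (by linarith)
            linarith
          have h3 : (ΛB : ℤ) ≤ m 8 := le_of_mul_le_mul_left h2 (by linarith)
          exact_mod_cast h3
        rw [hD]
        exact hGB P hPB h1
      · have h1 : ΛB ≤ m 8 := by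
          have h2 : (κ : ℤ) * ΛB ≤ κ * m 8 := by
            rw [hB1']
            have h3 : ((κ : ℤ) - 1) * W0 ≤ (κ - 1) * W :=
              mul_le_mul_of_nonneg_left hWW (by linarith)
            linarith
          have h3 : (ΛB : ℤ) ≤ m 8 := le_of_mul_le_mul_left h2 (by linarith)
          exact_mod_cast h3
        rw [hD]
        exact hGB P hPB h1

end Pool.Agent.Helper97.Tate
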