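import Pool.Agent.Helper1.Tate.BAS
import Pool.Agent.Helper12.Tate.SGR
import Pool.Agent.Helper12.Tate.STR
import Pool.Agent.Helper13.Tate.VAB
import Pool.Agent.Helper15.Tate.CFM
import Pool.Agent.Helper15.Tate.EXP
import Pool.Agent.Helper19.Tate.WPT
import Pool.Agent.Helper25.Tate.SPN
import Pool.Agent.Helper3.Tate.BLK
import Pool.Agent.Helper3.Tate.EVC
import Pool.Agent.Helper31.Tate.CPA
import Pool.Agent.Helper31.Tate.CPB
import Pool.Agent.Helper31.Tate.JJI
import Pool.Agent.Helper32.Tate.GRK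
import Pool.Agent.Helper32.Tate.KRA
import Pool.Agent.Helper35.Tate.KRC
import Pool.Agent.Helper35.Tate.LHY
import Pool.Agent.Helper35.Tate.LSS
import Pool.Agent.Helper35.Tate.VSR
import Pool.Agent.Helper36.Tate.MNR
import Pool.Agent.Helper36.Tate.THZ
import Pool.Agent.Helper40.Tate.LIN
import Pool.Agent.Helper44.Tate.TRK
import Pool.Agent.Helper46.Tate.TRL
import Pool.Agent.Helper48.Tate.NIN
import Pool.Agent.Helper49.Tate.COL
import Pool.Agent.Helper49.Tate.EVU
import Pool.Agent.Helper54.Tate.DIV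
import Pool.Agent.Helper56.Tate.MUL
import Pool.Agent.Helper63.Tate.DET
import Pool.Agent.Helper65.Tate.KRB
import Pool.Agent.Helper66.Tate.GEN
import Pool.Agent.Helper66.Tate.KRD
import Pool.Agent.Helper73.Tate.EVI
import Pool.Agent.Helper76.Tate.KRN
import Pool.Agent.Helper78.Tate.CUV
import Pool.Agent.Helper78.Tate.IND
import Pool.Agent.Helper78.Tate.RED
import Pool.Agent.Helper78.Tate.VAA
import Pool.Agent.Helper79.Tate.DVM
import Pool.Agent.Helper79.Tate.SIG
import Pool.Agent.Helper85.Tate.SEM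
import Pool.Agent.Helper87.Tate.CUB
import Pool.Agent.Helper93.Tate.SIM
import Pool.Agent.Helper93.Tate.TWO
import Pool.Agent.Helper94.Tate.BSE
import Pool.Agent.Helper94.Tate.DRP
import Pool.Agent.Helper94.Tate.LEV
import Pool.Agent.Helper94.Tate.MIA
import Pool.Agent.Helper94.Tate.MIB
import Pool.Agent.Helper95.Tate.TIP
import Pool.Agent.Helper96.Tate.THC
import Pool.Agent.Helper99.Tate.PRD
import Pool.Agent.Helper97.Tate.Fin

/-!
Assembly of the goals of the project.
-/

set_option autoImplicit false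

noncomputable section

namespace Pool.Agent.Helper97.Tate

theorem all_SEM : S_SEM := Pool.Agent.Helper85.Tate.SEM.t
theorem all_CFM : S_CFM := Pool.Agent.Helper15.Tate.CFM.t
theorem all_EXP : S_EXP := Pool.Agent.Helper15.Tate.EXP.t
theorem all_VAB : S_VAB := Pool.Agent.Helper13.Tate.VAB.t
theorem all_WPT : S_WPT := Pool.Agent.Helper19.Tate.WPT.t
theorem all_SPN : S_SPN := Pool.Agent.Helper25.Tate.SPN.t
theorem all_BLK : S_BLK := Pool.Agent.Helper3.Tate.BLK.t
theorem all_EVC : S_EVC := Pool.Agent.Helper3.Tate.EVC.t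
theorem all_CPA : S_CPA := Pool.Agent.Helper31.Tate.CPA.t
theorem all_CPB : S_CPB := Pool.Agent.Helper31.Tate.CPB.t
theorem all_JJI : S_JJI := Pool.Agent.Helper31.Tate.JJI.t
theorem all_GRK : S_GRK := Pool.Agent.Helper32.Tate.GRK.t all_SEM
theorem all_LSS : S_LSS := Pool.Agent.Helper35.Tate.LSS.t
theorem all_VSR : S_VSR := Pool.Agent.Helper35.Tate.VSR.t all_VAB
theorem all_MNR : S_MNR := Pool.Agent.Helper36.Tate.MNR.t
theorem all_THC : S_THC := Pool.Agent.Helper96.Tate.THC.t
theorem all_THZ : S_THZ := Pool.Agent.Helper36.Tate.THZ.t all_THC all_EVC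
theorem all_LIN : S_LIN := Pool.Agent.Helper40.Tate.LIN.t
theorem all_TRK : S_TRK := Pool.Agent.Helper44.Tate.TRK.t all_MNR
theorem all_TRL : S_TRL := Pool.Agent.Helper46.Tate.TRL.t all_EVC all_THC
theorem all_COL : S_COL := Pool.Agent.Helper49.Tate.COL.t all_SPN
theorem all_BAS : S_BAS := Pool.Agent.Helper1.Tate.BAS.t all_LIN all_THC
theorem all_EVI : S_EVI := Pool.Agent.Helper73.Tate.EVI.t
theorem all_EVU : S_EVU := Pool.Agent.Helper49.Tate.EVU.t all_BAS all_EVC all_EVI
theorem all_MUL : S_MUL := Pool.Agent.Helper56.Tate.MUL.t all_CFM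
theorem all_DIV : S_DIV :=
  Pool.Agent.Helper54.Tate.DIV.t all_MUL all_LIN all_THC all_BAS all_EVC all_THZ
theorem all_DVM : S_DVM := Pool.Agent.Helper79.Tate.DVM.t all_DIV all_THZ
theorem all_SIG : S_SIG := Pool.Agent.Helper79.Tate.SIG.t all_EVC all_THC
theorem all_KRB : S_KRB := Pool.Agent.Helper65.Tate.KRB.t all_TRL all_SIG
theorem all_GEN : S_GEN := Pool.Agent.Helper66.Tate.GEN.t
theorem all_STR : S_STR := Pool.Agent.Helper12.Tate.STR.t all_COL
theorem all_SGR : S_SGR := Pool.Agent.Helper12.Tate.SGR.t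
theorem all_KRA : S_KRA := Pool.Agent.Helper32.Tate.KRA.t all_BLK all_STR
theorem all_KRC : S_KRC := Pool.Agent.Helper35.Tate.KRC.t all_BLK all_STR all_LSS
theorem all_KRD : S_KRD := Pool.Agent.Helper66.Tate.KRD.t all_SGR all_KRA all_KRB all_KRC
theorem all_CUV : S_CUV := Pool.Agent.Helper78.Tate.CUV.t all_THC all_EVC
theorem all_IND : S_IND := Pool.Agent.Helper78.Tate.IND.t
theorem all_RED : S_RED := Pool.Agent.Helper78.Tate.RED.t
theorem all_VAA : S_VAA := Pool.Agent.Helper78.Tate.VAA.t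
theorem all_KRN : S_KRN :=
  Pool.Agent.Helper76.Tate.KRN.t all_EVC all_EVI all_THC all_IND all_RED all_CUV
theorem all_CUB : S_CUB := Pool.Agent.Helper87.Tate.CUB.t all_CFM all_MUL all_THC all_BAS
theorem all_SIM : S_SIM := Pool.Agent.Helper93.Tate.SIM.t
theorem all_TWO : S_TWO := Pool.Agent.Helper93.Tate.TWO.t
theorem all_DRP : S_DRP := Pool.Agent.Helper94.Tate.DRP.t all_VAA
theorem all_BSE : S_BSE := Pool.Agent.Helper94.Tate.BSE.t all_DRP all_VAB
theorem all_MIA : S_MIA :=
  Pool.Agent.Helper94.Tate.MIA.t all_GRK all_EXP all_JJI all_DRP all_VAB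
theorem all_MIB : S_MIB := Pool.Agent.Helper94.Tate.MIB.t all_MIA all_EXP all_VAB
theorem all_LEV : S_LEV :=
  Pool.Agent.Helper94.Tate.LEV.t all_MUL all_LIN all_THC all_BAS all_EVC all_EVU all_THZ
    all_DVM all_KRN all_VSR
theorem all_LHY : S_LHY := Pool.Agent.Helper35.Tate.LHY.t all_LEV
theorem all_NIN : S_NIN :=
  Pool.Agent.Helper48.Tate.NIN.t all_TWO all_LEV all_DRP all_CUV all_VAA all_VAB

/-- all the goals hold -/
theorem allGoals : AllGoals where
  cuv := all_CUV
  thz := all_THZ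
  lhy := all_LHY
  kra := all_KRA
  krd := all_KRD
  lss := all_LSS
  vaa := all_VAA
  vab := all_VAB
  sim := all_SIM
  mib := all_MIB
  gen := all_GEN
  cub := all_CUB
  wpt := all_WPT
  drp := all_DRP
  bse := all_BSE
  nin := all_NIN
  trk := all_TRK
  cpa := all_CPA
  cpb := all_CPB

end Pool.Agent.Helper97.Tate
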