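import Pool.Agent.Helper97.Tate.Iter

/-!
The block data from the theta functions.
-/

set_option autoImplicit false

noncomputable section

namespace Pool.Agent.Helper97.Tate

open Module

theorem constantCoeff_aeval {K : Type} [Field K] (f : Fin 3 → PowerSeries K)
    (z : MvPolynomial (Fin 3) K) :
    PowerSeries.constantCoeff (MvPolynomial.aeval f z) =
      MvPolynomial.eval (fun r => PowerSeries.constantCoeff (f r)) z := by
  induction z using MvPolynomial.induction_on with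
  | C a => simp [MvPolynomial.algHom_C, PowerSeries.algebraMap_eq]
  | add p q hp hq => rw [map_add, map_add, map_add, hp, hq]
  | mul_X p i hp => rw [map_mul, map_mul, map_mul, hp, MvPolynomial.aeval_X, MvPolynomial.eval_X]

theorem cub_homog {A : Type} [CommRing A] (α β γ : A) : (cub α β γ).IsHomogeneous 3 := by
  unfold cub
  have h1 : ((MvPolynomial.X 0 * MvPolynomial.X 1 * MvPolynomial.X 2 :
      MvPolynomial (Fin 3) A)).IsHomogeneous 3 :=
    ((MvPolynomial.isHomogeneous_X A 0).mul (MvPolynomial.isHomogeneous_X A 1)).mul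
      (MvPolynomial.isHomogeneous_X A 2)
  have h2 : ∀ (a : A) (i : Fin 3), ((MvPolynomial.C a * MvPolynomial.X i ^ 3 :
      MvPolynomial (Fin 3) A)).IsHomogeneous 3 := by
    intro a i
    have h3 := (MvPolynomial.isHomogeneous_C (Fin 3) a).mul
      ((MvPolynomial.isHomogeneous_X A i).pow 3)
    simpa using h3
  exact ((h1.sub (h2 α 0)).sub (h2 β 1)).sub (h2 γ 2)

section

variable {k : Type} [Field k] [CharZero k]

/-- the nine points -/
def P0 (w : Fin 9 → kˣ) (i : ℕ) : Fin 3 → KK k :=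
  if h : i < 9 then fun r => PowerSeries.constantCoeff (ph (w ⟨i, h⟩) r) else 0

theorem P0_fin (w : Fin 9 → kˣ) (i : Fin 9) :
    P0 w i = fun r => PowerSeries.constantCoeff (ph (w i) r) := by
  rw [P0, dif_pos i.2]

theorem nine (hCUV : S_CUV) (hVAB : S_VAB) {α β γ : OO k} (hc : IsCub α β γ) (w : Fin 9 → kˣ) :
    ∀ i < 9, cubK α β γ ∈ Van (P0 w i) 1 ∧ cubK α β γ ∉ Van (P0 w i) 2 := by
  intro i hi
  obtain ⟨h1, h2, -⟩ := hCUV k α β γ hc (w ⟨i, hi⟩) (w ⟨i, hi⟩) (w ⟨i, hi⟩)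
  have e : P0 w i = fun r => PowerSeries.constantCoeff (ph (w ⟨i, hi⟩) r) := P0_fin w ⟨i, hi⟩
  obtain ⟨-, h3, h4, -⟩ := hVAB (KK k) (P0 w i)
  constructor
  · rw [h3, e, ← constantCoeff_aeval, h1, map_zero]
  · apply h4 _ 0
    rw [e, ← constantCoeff_aeval]
    exact h2

theorem prod_unit (hTHZ : S_THZ) (w : Fin 9 → kˣ) (x : kˣ) (hx : ∀ i, x ≠ w i) (e : Fin 9 → ℕ) :
    PowerSeries.constantCoeff (∏ i, evK x (th (w i)) ^ e i) ≠ 0 := by
  rw [map_prod, Finset.prod_ne_zero_iff]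
  intro i _
  rw [map_pow]
  exact pow_ne_zero _ ((hTHZ k (w i) x).2.2.1 (hx i))

theorem algC_ne_zero {a : k} (ha : a ≠ 0) :
    algebraMap (OO k) (KK k) (PowerSeries.C a) ≠ 0 := by
  intro h
  have h1 := (IsFractionRing.injective (OO k) (KK k)) (h.trans (map_zero _).symm)
  apply ha
  have h2 := congrArg PowerSeries.constantCoeff h1
  simpa using h2

/-- block data, with a bound for the kernel as hypothesis -/
theorem bdata (hCUV : S_CUV) (hTHZ : S_THZ) (hLHY : S_LHY) {α β γ : OO k} (hc : IsCub α β γ)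
    (w : Fin 9 → kˣ) (hw : Function.Injective w) (m : ℕ → ℕ) (d κ : ℕ) (hκ : 1 ≤ κ)
    (hd : κ + ∑ i ∈ Finset.range 9, m i = 3 * d) (ρ : ℚ) (z : kˣ) (E : ℤ)
    (hρ : ∀ j : ℕ, ∏ i : Fin 9, (-((w i : kˣ) : k)) ^ ((m (i : ℕ) : ℤ) - j) =
        (ρ : k) * (z : k) ^ ((κ : ℤ) * (E - 9 * j)))
    (b M lam k1 : ℕ) (x y : Fin b → kˣ) (hx : ∀ l i, x l ≠ w i)
    (hK : ∀ j0, finrank (KK k) (Ker M lam j0
      (fun i : Fin b => algebraMap (OO k) (KK k) (PowerSeries.C ((y i : kˣ) : k)))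
      (fun i j (r : Fin κ) => evK (x i) (Th κ ((r : ℕ) : ℤ)
        ((ρ : k) * (z : k) ^ ((κ : ℤ) * (E - 9 * j)))))) ≤ k1) :
    BData (cubK α β γ) (P0 w) m d κ b M lam k1 := by
  have hu : ∀ l, PowerSeries.constantCoeff (MvPolynomial.aeval (ph (x l))
      (MvPolynomial.pderiv 0 (cubK α β γ))) ≠ 0 := fun l =>
    (hCUV k α β γ hc (x l) (x l) (x l)).2.1
  refine ⟨fun l => ph (x l), fun l => (MvPolynomial.aeval (ph (x l))
      (MvPolynomial.pderiv 0 (cubK α β γ)))⁻¹ *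
      (PowerSeries.C (algebraMap (OO k) (KK k) (PowerSeries.C ((y l : kˣ) : k))) *
        ∏ i, evK (x l) (th (w i))),
    fun l => ∏ i, evK (x l) (th (w i)), fun l => ∏ i : Fin 9, evK (x l) (th (w i)) ^ m (i : ℕ),
    fun l => algebraMap (OO k) (KK k) (PowerSeries.C ((y l : kˣ) : k)),
    fun i j r => evK (x i) (Th κ ((r : ℕ) : ℤ)
        ((ρ : k) * (z : k) ^ ((κ : ℤ) * (E - 9 * j)))), ?_, ?_, ?_, ?_, ?_, ?_, hK⟩
  · intro l
    exact (hCUV k α β γ hc (x l) (x l) (x l)).1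
  · intro l
    rw [← mul_assoc, PowerSeries.mul_inv_cancel _ (hu l), one_mul]
  · intro l
    exact algC_ne_zero (Units.ne_zero _)
  · intro l
    have := prod_unit hTHZ w (x l) (hx l) (fun _ => 1)
    simpa using this
  · intro l
    exact prod_unit hTHZ w (x l) (hx l) (fun i => m (i : ℕ))
  · intro P hP
    have h1 := hLHY k α β γ hc w hw P (fun i => by rw [hP i i.2, P0_fin]) m d κ hκ hd
      (fun j => (ρ : k) * (z : k) ^ ((κ : ℤ) * (E - 9 * j))) (fun j => (hρ j).symm) b x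
    exact h1

end

end Pool.Agent.Helper97.Tate
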