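import Mathlib

/-!
Definitions for the project FewPoints (MP_d3128a_ag): formal theta functions on the Tate curve
`G_m / q^Z`, the plane cubic, multiplicities at points of the plane over a field, the conditions of a
block of points near the cubic.
-/

set_option autoImplicit false

noncomputable section

namespace Pool.Agent.Helper97.Tate

section Theta

/-- formal power series in `q` -/
abbrev OO (k : Type) [Field k] := PowerSeries k

/-- the field `k((q))` -/
abbrev KK (k : Type) [Field k] := FractionRing (PowerSeries k)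

/-- power series in `q` with coefficients Laurent polynomials in `T` -/
abbrev SS (k : Type) [Field k] := PowerSeries (LaurentPolynomial k)

variable {k : Type} [Field k]

/-- the coefficient of `q ^ N * T ^ n` (zero for `N < 0`) -/
def cf (f : SS k) (N n : ℤ) : k :=
  if 0 ≤ N then (PowerSeries.coeff N.toNat f : LaurentPolynomial k).coeff n else 0

/-- theta functions of degree `κ` and multiplier `c` -/
def IsTh (κ : ℕ) (c : k) (f : SS k) : Prop :=
  ∀ N n : ℤ, cf f N (n + κ) = c * cf f (N - n) n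

/-- the exponent of `q` -/
def qe (κ : ℕ) (r l : ℤ) : ℤ := r * l + κ * (l * (l - 1) / 2)

/-- the standard theta functions: the sum over all integers `l` of
`c ^ l * q ^ (qe κ r l) * T ^ (r + κ * l)` -/
def Th (κ : ℕ) (r : ℤ) (c : k) : SS k :=
  PowerSeries.mk fun N => ∑ l ∈ Finset.Icc (-(N : ℤ)) (N + 1),
    if qe κ r l = N then LaurentPolynomial.C (c ^ l) * LaurentPolynomial.T (r + κ * l) else 0

/-- power series in `q` as elements of `SS k` -/
def iO : OO k →+* SS k := PowerSeries.map LaurentPolynomial.C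

/-- the `n`-th coefficient, a power series in `q` -/
def ser (f : SS k) (n : ℤ) : OO k := PowerSeries.mk fun N => cf f N n

/-- the unit `x * (1 + s)` -/
def xs (x : kˣ) : (PowerSeries k)ˣ where
  val := PowerSeries.C (x : k) * (1 + PowerSeries.X)
  inv := PowerSeries.C (((x⁻¹ : kˣ) : k)) * (1 + PowerSeries.X)⁻¹
  val_inv := by
    have h1 : (PowerSeries.C (x : k)) * PowerSeries.C (((x⁻¹ : kˣ) : k)) = 1 := by
      rw [← map_mul, Units.mul_inv, map_one]
    have h2 : (1 + PowerSeries.X : PowerSeries k) * (1 + PowerSeries.X)⁻¹ = 1 :=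
      PowerSeries.mul_inv_cancel _ (by simp)
    rw [mul_mul_mul_comm, h1, h2, one_mul]
  inv_val := by
    have h1 : (PowerSeries.C (((x⁻¹ : kˣ) : k))) * PowerSeries.C (x : k) = 1 := by
      rw [← map_mul, Units.inv_mul, map_one]
    have h2 : (1 + PowerSeries.X : PowerSeries k)⁻¹ * (1 + PowerSeries.X) = 1 :=
      PowerSeries.inv_mul_cancel _ (by simp)
    rw [mul_mul_mul_comm, h1, h2, one_mul]

/-- `T ↦ x * (1 + s)` on Laurent polynomials -/
def evR (x : kˣ) : LaurentPolynomial k →+* PowerSeries k :=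
  LaurentPolynomial.eval₂ PowerSeries.C (xs x)

/-- exchange of the two variables of an iterated power series ring -/
def sw : PowerSeries (PowerSeries k) →+* PowerSeries (PowerSeries k) where
  toFun f := PowerSeries.mk fun i => PowerSeries.mk fun j =>
    PowerSeries.coeff i (PowerSeries.coeff j f)
  map_one' := by
    ext i j
    simp only [PowerSeries.coeff_mk, PowerSeries.coeff_one]
    split_ifs <;> simp_all [PowerSeries.coeff_one]
  map_zero' := by
    ext i j
    simp
  map_add' f g := by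
    ext i j
    simp
  map_mul' f g := by
    ext i j
    simp only [PowerSeries.coeff_mk, PowerSeries.coeff_mul, map_sum]
    exact Finset.sum_comm

/-- the evaluation `T ↦ x * (1 + s)` as a series in `s` with coefficients in `k⟦q⟧` -/
def evx (x : kˣ) : SS k →+* PowerSeries (OO k) := sw.comp (PowerSeries.map (evR x))

/-- the same with coefficients in the field `k((q))` -/
def evK (x : kˣ) : SS k →+* PowerSeries (KK k) :=
  (PowerSeries.map (algebraMap (OO k) (KK k))).comp (evx x)

/-- the germ at `x` of the cubic: three theta functions of degree three -/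
def ph (x : kˣ) (r : Fin 3) : PowerSeries (KK k) := evK x (Th 3 ((r : ℕ) : ℤ) 1)

/-- the theta function of degree one vanishing at `w` -/
def th (w : kˣ) : SS k := Th 1 0 (-((w⁻¹ : kˣ) : k))

/-- the cubic -/
def cub {A : Type} [CommRing A] (α β γ : A) : MvPolynomial (Fin 3) A :=
  MvPolynomial.X 0 * MvPolynomial.X 1 * MvPolynomial.X 2 -
    MvPolynomial.C α * MvPolynomial.X 0 ^ 3 - MvPolynomial.C β * MvPolynomial.X 1 ^ 3 -
    MvPolynomial.C γ * MvPolynomial.X 2 ^ 3

/-- the coefficients of the cubic -/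
def IsCub (α β γ : OO k) : Prop :=
  PowerSeries.X ∣ α ∧ PowerSeries.X ∣ β - 1 ∧ PowerSeries.X ∣ γ - 1 ∧
    Th 3 0 1 * Th 3 1 1 * Th 3 2 1 = iO α * Th 3 0 1 ^ 3 + iO β * Th 3 1 1 ^ 3 +
      iO γ * Th 3 2 1 ^ 3

/-- the cubic over the field `k((q))` -/
def cubK (α β γ : OO k) : MvPolynomial (Fin 3) (KK k) :=
  cub (algebraMap (OO k) (KK k) α) (algebraMap (OO k) (KK k) β) (algebraMap (OO k) (KK k) γ)

end Theta

section Plane

variable {K : Type} [Field K]

/-- translation -/
def tau (P : Fin 3 → K) : MvPolynomial (Fin 3) K →ₐ[K] MvPolynomial (Fin 3) K :=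
  MvPolynomial.aeval fun i => MvPolynomial.X i + MvPolynomial.C (P i)

/-- polynomials of multiplicity at least `m` at the point `P` of affine three-space -/
def Van (P : Fin 3 → K) (m : ℕ) : Submodule K (MvPolynomial (Fin 3) K) where
  carrier := {z | ∀ e : Fin 3 →₀ ℕ, e.degree < m → MvPolynomial.coeff e (tau P z) = 0}
  add_mem' := by
    intro a b ha hb e he
    rw [map_add, MvPolynomial.coeff_add, ha e he, hb e he, add_zero]
  zero_mem' := by
    intro e _
    rw [map_zero, MvPolynomial.coeff_zero]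
  smul_mem' := by
    intro c a ha e he
    rw [map_smul, MvPolynomial.coeff_smul, ha e he, smul_zero]

/-- forms of degree `n` (zero if `n < 0`) -/
def Fm (K : Type) [Field K] (n : ℤ) : Submodule K (MvPolynomial (Fin 3) K) :=
  if 0 ≤ n then MvPolynomial.homogeneousSubmodule (Fin 3) K n.toNat else ⊥

/-- the forms of degree `d - 3 * j` with multiplicity at least `m i - j` at the nine points `P i`,
`i < 9`, and at least `m i` at the points `P i`, `i ∈ S` -/
def WW (P : ℕ → Fin 3 → K) (m : ℕ → ℕ) (S : Finset ℕ) (d j : ℕ) :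
    Submodule K (MvPolynomial (Fin 3) K) :=
  Fm K ((d : ℤ) - 3 * j) ⊓ (⨅ i ∈ Finset.range 9, Van (P i) (m i - j)) ⊓ ⨅ i ∈ S, Van (P i) (m i)

/-- the solutions of the conditions of a block: `b` points of multiplicity `M`, levels
`j0, ..., j0 + lam - 1` -/
def Ker {κ b : ℕ} (M lam j0 : ℕ) (Y : Fin b → K) (S : Fin b → ℕ → Fin κ → PowerSeries K) :
    Submodule K (Fin lam → Fin κ → K) where
  carrier := {a | ∀ (i : Fin b) (α β : ℕ), α + β < M →
    ∑ j : Fin lam, Y i ^ (j : ℕ) * ((j : ℕ).choose β : K) *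
      ∑ r : Fin κ, a j r * PowerSeries.coeff α (S i (j0 + j) r) = 0}
  add_mem' := by
    intro a a' ha ha' i α β h
    have h1 := ha i α β h
    have h2 := ha' i α β h
    simp only [Pi.add_apply, add_mul, Finset.sum_add_distrib, mul_add]
    rw [h1, h2, add_zero]
  zero_mem' := by
    intro i α β h
    simp
  smul_mem' := by
    intro c a ha i α β h
    have h1 := ha i α β h
    have h2 : ∑ j : Fin lam, Y i ^ (j : ℕ) * ((j : ℕ).choose β : K) *
        ∑ r : Fin κ, (c • a) j r * PowerSeries.coeff α (S i (j0 + j) r) =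
        c * ∑ j : Fin lam, Y i ^ (j : ℕ) * ((j : ℕ).choose β : K) *
          ∑ r : Fin κ, a j r * PowerSeries.coeff α (S i (j0 + j) r) := by
      rw [Finset.mul_sum]
      apply Finset.sum_congr rfl
      intro j _
      have h3 : ∑ r : Fin κ, (c • a) j r * PowerSeries.coeff α (S i (j0 + j) r) =
          c * ∑ r : Fin κ, a j r * PowerSeries.coeff α (S i (j0 + j) r) := by
        rw [Finset.mul_sum]
        apply Finset.sum_congr rfl
        intro r _
        simp only [Pi.smul_apply, smul_eq_mul, mul_assoc]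
      rw [h3]
      ring
    rw [h2, h1, mul_zero]

end Plane

section Deform

variable {K : Type} [Field K]

open Polynomial in
/-- the deformation: `X_0 ↦ f_0 + ε * v * (1 + t)`, `X_1 ↦ f_1`, `X_2 ↦ f_2` (series in `s`,
polynomials in `t`) -/
def tst (f : Fin 3 → PowerSeries K) (v : PowerSeries K) (ε : K) :
    MvPolynomial (Fin 3) K →ₐ[K] Polynomial (PowerSeries K) :=
  MvPolynomial.aeval ![Polynomial.C (f 0) + Polynomial.C (PowerSeries.C ε * v) * (1 + Polynomial.X),
    Polynomial.C (f 1), Polynomial.C (f 2)]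

/-- the new point -/
def nP (f : Fin 3 → PowerSeries K) (v : PowerSeries K) (ε : K) : Fin 3 → K :=
  ![PowerSeries.constantCoeff (f 0) + ε * PowerSeries.constantCoeff v,
    PowerSeries.constantCoeff (f 1), PowerSeries.constantCoeff (f 2)]

/-- the structure of the restriction of the system of level `j` to the cubic `g`: the sections are
theta functions of degree `κ` -/
def LevHyp (g : MvPolynomial (Fin 3) K) (P : ℕ → Fin 3 → K) (m : ℕ → ℕ) (d κ : ℕ) {b : ℕ}
    (h : Fin b → Fin 3 → PowerSeries K) (Θ B : Fin b → PowerSeries K)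
    (S : Fin b → ℕ → Fin κ → PowerSeries K) : Prop :=
  ∀ j, 3 * j ≤ d → ∃ a : WW P m ∅ d j →ₗ[K] (Fin κ → K),
    (∀ z, a z = 0 → g ∣ (z : MvPolynomial (Fin 3) K)) ∧
    ∀ (z : WW P m ∅ d j) (i : Fin b),
      Θ i ^ j * MvPolynomial.aeval (h i) (z : MvPolynomial (Fin 3) K) =
        B i * ∑ r : Fin κ, PowerSeries.C (a z r) * S i j r

/-- the index set of the conditions of a block -/
abbrev Idx (b M : ℕ) : Type := Fin b × {p : Fin M × Fin M // (p.1 : ℕ) + (p.2 : ℕ) < M}

/-- the columns of the matrix of a block -/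
def colv {κ b : ℕ} (M j0 : ℕ) (Y : Fin b → K) (S : Fin b → ℕ → Fin κ → PowerSeries K) (j : ℕ)
    (r : Fin κ) : Idx b M → K :=
  fun p => Y p.1 ^ j * ((j.choose (p.2.1.2 : ℕ) : ℕ) : K) *
    PowerSeries.coeff (p.2.1.1 : ℕ) (S p.1 (j0 + j) r)

end Deform

section System

variable {k : Type} [Field k]

/-- the forms of degree `d` with multiplicity at least `e i` at the point of the parameter `w i` -/
def Sys (w : Fin 9 → kˣ) (d : ℕ) (e : Fin 9 → ℕ) : Submodule (KK k) (MvPolynomial (Fin 3) (KK k)) :=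
  MvPolynomial.homogeneousSubmodule (Fin 3) (KK k) d ⊓
    ⨅ i, Van (fun r => PowerSeries.constantCoeff (ph (w i) r)) (e i)

end System

/-- independence of the evaluations at the points of a finite set of `ℤ × ℤ` on the polynomials
of degree `< M` -/
def Indep (M : ℕ) (S : Finset (ℤ × ℤ)) : Prop :=
  ∀ a : ℤ × ℤ → ℚ,
    (∀ α β : ℕ, α + β < M →
      ∑ p ∈ S, a p * (((Ring.choose p.1 β : ℤ) : ℚ) * ((Ring.choose p.2 α : ℤ) : ℚ)) = 0) →
    ∀ p ∈ S, a p = 0

/-- the strip: `0 ≤ j < L`, `h j ≤ n - s < h j + κ` (for integers `n`: `n - s - κ < h j ≤ n - s`),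
where `h = (2 P - 1) / (2 P ^ 2)` -/
def strip (P κ L : ℕ) (s : ℤ) : Finset (ℤ × ℤ) :=
  ((Finset.Ico (0 : ℤ) L) ×ˢ (Finset.Icc s (s + L + κ))).filter fun p =>
    (2 * (P : ℤ) - 1) * p.1 ≤ 2 * (P : ℤ) ^ 2 * (p.2 - s) ∧
      2 * (P : ℤ) ^ 2 * (p.2 - s - κ) < (2 * (P : ℤ) - 1) * p.1

/-- the Laurent monomial with exponents `g` -/
def mon {k : Type} [Field k] {b : ℕ} (z : kˣ) (x y : Fin b → kˣ) (g : ℤ × (Fin b → ℤ) × (Fin b → ℤ)) :
    kˣ := z ^ g.1 * (∏ i, x i ^ g.2.1 i) * ∏ i, y i ^ g.2.2 i

/-- `z, x_i, y_i` are algebraically independent over `ℚ` -/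
def Gen {k : Type} [Field k] [CharZero k] {b : ℕ} (z : kˣ) (x y : Fin b → kˣ) : Prop :=
  LinearIndependent ℚ fun g : ℤ × (Fin b → ℤ) × (Fin b → ℤ) => (mon z x y g : k)

/-- the minimal number of conditions lost by a point of multiplicity `u` in a strip of thickness `k`:
`(r ^ 2 - 1) / 8`, where `r` is the distance from `2 u + 1` to the nearest multiple of `4 k` -/
def loss (k u : ℕ) : ℕ :=
  ((min ((2 * u + 1) % (4 * k)) (4 * k - (2 * u + 1) % (4 * k))) ^ 2 - 1) / 8

end Pool.Agent.Helper97.Tate
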