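import Pool.Agent.Helper97.Tate.Goals

/-!
Grouping of the points into blocks.
-/

set_option autoImplicit false

noncomputable section

namespace Pool.Agent.Helper97.Tate

open Module

/-- induction over the blocks -/
theorem group_induction (u b : ℕ → ℕ) (Q : Finset ℕ → Prop) (h0 : Q ∅)
    (E0 : Finset ℕ)
    (hs : ∀ S T : Finset ℕ, S ∪ T ⊆ E0 → Disjoint S T → ∀ i ∈ T,
      (∀ l ∈ T, u l = u i ∧ b l = b i) → T.card = b i → Q S → Q (S ∪ T))
    (hb : ∀ i ∈ E0, 1 ≤ b i ∧ b i ∣ (E0.filter fun l => u l = u i ∧ b l = b i).card) : Q E0 := by
  have key : ∀ n : ℕ, ∀ E ⊆ E0, E.card = n →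
      (∀ i ∈ E, b i ∣ (E.filter fun l => u l = u i ∧ b l = b i).card) →
      Q (E0 \ E) → Q E0 := by
    intro n
    induction n using Nat.strong_induction_on with
    | _ n ih =>
      intro E hE hn hdiv hQ
      rcases E.eq_empty_or_nonempty with rfl | ⟨i, hi⟩
      · rwa [Finset.sdiff_empty] at hQ
      · set Fi := E.filter fun l => u l = u i ∧ b l = b i with hFi
        have hiF : i ∈ Fi := Finset.mem_filter.2 ⟨hi, rfl, rfl⟩
        have hpos : 0 < Fi.card := Finset.card_pos.2 ⟨i, hiF⟩
        have hle : b i ≤ Fi.card := Nat.le_of_dvd hpos (hdiv i hi)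
        obtain ⟨T, hTF, hTc⟩ := Finset.exists_subset_card_eq hle
        have hb1 := (hb i (hE hi)).1
        have hTE : T ⊆ E := hTF.trans (Finset.filter_subset _ _)
        obtain ⟨i', hi'⟩ : T.Nonempty := Finset.card_pos.1 (by omega)
        have hTl : ∀ l ∈ T, u l = u i ∧ b l = b i := fun l hl => (Finset.mem_filter.1 (hTF hl)).2
        have h1 : Q ((E0 \ E) ∪ T) := by
          apply hs (E0 \ E) T _ _ i' hi' _ _ hQ
          · exact Finset.union_subset (Finset.sdiff_subset) (hTE.trans hE)
          · rw [Finset.disjoint_left]
            intro l hl hlT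
            exact (Finset.mem_sdiff.1 hl).2 (hTE hlT)
          · intro l hl
            have h2 := hTl l hl
            have h3 := hTl i' hi'
            omega
          · rw [hTc, (hTl i' hi').2]
        have h2 : (E0 \ E) ∪ T = E0 \ (E \ T) := by
          ext l
          simp only [Finset.mem_union, Finset.mem_sdiff]
          have := @hTE l
          have := @hE l
          tauto
        rw [h2] at h1
        apply ih (E \ T).card _ (E \ T) (Finset.sdiff_subset.trans hE) rfl _ h1
        · rw [← hn]
          apply Finset.card_lt_card
          rw [Finset.ssubset_iff_of_subset Finset.sdiff_subset]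
          exact ⟨i', hTE hi', fun h => (Finset.mem_sdiff.1 h).2 hi'⟩
        · intro l hl
          have hlE := (Finset.mem_sdiff.1 hl).1
          by_cases hc : u l = u i ∧ b l = b i
          · have h4 : ((E \ T).filter fun l' => u l' = u l ∧ b l' = b l) = Fi \ T := by
              ext l'
              simp only [hFi, Finset.mem_filter, Finset.mem_sdiff]
              constructor
              · rintro ⟨⟨h5, h6⟩, h7, h8⟩
                exact ⟨⟨h5, by omega, by omega⟩, h6⟩
              · rintro ⟨⟨h5, h7, h8⟩, h6⟩
                exact ⟨⟨h5, h6⟩, by omega, by omega⟩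
            rw [h4, Finset.card_sdiff_of_subset hTF, hTc, hc.2]
            exact Nat.dvd_sub (hdiv i hi) (dvd_refl _)
          · have h4 : ((E \ T).filter fun l' => u l' = u l ∧ b l' = b l) =
                E.filter fun l' => u l' = u l ∧ b l' = b l := by
              ext l'
              simp only [Finset.mem_filter, Finset.mem_sdiff]
              constructor
              · rintro ⟨⟨h5, h6⟩, h7⟩
                exact ⟨h5, h7⟩
              · rintro ⟨h5, h7⟩
                refine ⟨⟨h5, ?_⟩, h7⟩
                intro h6
                have := hTl l' h6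
                apply hc
                omega
            rw [h4]
            exact hdiv l hlE
  apply key E0.card E0 (Finset.Subset.refl _) rfl (fun i hi => (hb i hi).2)
  rwa [Finset.sdiff_self]

end Pool.Agent.Helper97.Tate
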