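import Pool.Agent.Helper97.Tate.Grp

/-!
Iteration of the main inequality over the blocks.
-/

set_option autoImplicit false

noncomputable section

namespace Pool.Agent.Helper97.Tate

open Module

/-- the inequality between all levels, after placing the points of `S` -/
def State {K : Type} [Field K] (g : MvPolynomial (Fin 3) K) (P0 : ℕ → Fin 3 → K) (m : ℕ → ℕ) (d : ℕ)
    (S : Finset ℕ) (Λ k0 : ℕ) : Prop :=
  ∃ P : ℕ → Fin 3 → K, (∀ i < 9, P i = P0 i) ∧ (∀ i ∈ S, 9 ≤ i ∧ g ∉ Van (P i) 1) ∧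
    ∀ j, finrank K (WW P m S d j) ≤ finrank K (WW P0 m ∅ d (j + Λ)) + k0

theorem state_empty {K : Type} [Field K] (g : MvPolynomial (Fin 3) K) (P0 : ℕ → Fin 3 → K)
    (m : ℕ → ℕ) (d : ℕ) : State g P0 m d ∅ 0 0 :=
  ⟨P0, fun _ _ => rfl, fun i hi => absurd hi (Finset.notMem_empty i), fun j => le_rfl⟩

/-- everything about the curve that is used: block data for `b` points -/
def BData {K : Type} [Field K] (g : MvPolynomial (Fin 3) K) (P0 : ℕ → Fin 3 → K) (m : ℕ → ℕ)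
    (d κ b M lam k0 : ℕ) : Prop :=
  ∃ (h : Fin b → Fin 3 → PowerSeries K) (v Θ B : Fin b → PowerSeries K) (Y : Fin b → K)
    (S : Fin b → ℕ → Fin κ → PowerSeries K),
    (∀ i, MvPolynomial.aeval (h i) g = 0) ∧
    (∀ i, MvPolynomial.aeval (h i) (MvPolynomial.pderiv 0 g) * v i = PowerSeries.C (Y i) * Θ i) ∧
    (∀ i, Y i ≠ 0) ∧ (∀ i, PowerSeries.constantCoeff (Θ i) ≠ 0) ∧
    (∀ i, PowerSeries.constantCoeff (B i) ≠ 0) ∧
    (∀ P : ℕ → Fin 3 → K, (∀ i < 9, P i = P0 i) → LevHyp g P m d κ h Θ B S) ∧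
    ∀ j0, finrank K (Ker M lam j0 Y S) ≤ k0

theorem state_step (hMIB : S_MIB) {K : Type} [Field K] [Infinite K] {g : MvPolynomial (Fin 3) K}
    {P0 : ℕ → Fin 3 → K} {m : ℕ → ℕ} {d κ b M lam k1 : ℕ} (hg : g.IsHomogeneous 3)
    (hg9 : ∀ i < 9, g ∈ Van (P0 i) 1 ∧ g ∉ Van (P0 i) 2)
    (hB : BData g P0 m d κ b M lam k1) {S T : Finset ℕ} {Λ k0 : ℕ}
    (hS : State g P0 m d S Λ k0) (hST : Disjoint S T) (hT : ∀ i ∈ T, 9 ≤ i ∧ m i = M)
    (hTc : T.card = b) : State g P0 m d (S ∪ T) (Λ + lam) (k0 + k1) := by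
  obtain ⟨P, hP9, hPS, hPf⟩ := hS
  obtain ⟨h, v, Θ, B, Y, S', h1, h2, h3, h4, h5, h6, h7⟩ := hB
  let t : Fin b → ℕ := fun i => ((T.equivFinOfCardEq hTc).symm i : ℕ)
  have htinj : Function.Injective t := fun i j hij =>
    (T.equivFinOfCardEq hTc).symm.injective (Subtype.ext hij)
  have htT : ∀ i, t i ∈ T := fun i => ((T.equivFinOfCardEq hTc).symm i).2
  have himg : Finset.univ.image t = T := by
    ext x
    rw [Finset.mem_image]
    constructor
    · rintro ⟨i, -, rfl⟩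
      exact htT i
    · intro hx
      refine ⟨T.equivFinOfCardEq hTc ⟨x, hx⟩, Finset.mem_univ _, ?_⟩
      simp [t]
  obtain ⟨P', hP'1, hP'2, hP'3⟩ := hMIB K g P m d κ b M lam k1 h v Θ B Y S' S t hg
    (fun i hi => by rw [hP9 i hi]; exact hg9 i hi) hPS h1 h2 h3 h4 h5 (h6 P hP9)
    (fun i => ⟨(hT _ (htT i)).1, fun hc => (Finset.disjoint_left.1 hST) hc (htT i),
      (hT _ (htT i)).2⟩) htinj h7
  rw [himg] at hP'3
  refine ⟨P', ?_, ?_, ?_⟩
  · intro i hi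
    rw [hP'1 i (fun l hl => ?_), hP9 i hi]
    have := (hT _ (htT l)).1
    omega
  · intro i hi
    rcases Finset.mem_union.1 hi with hi | hi
    · have h8 : ∀ l, i ≠ t l := by
        rintro l rfl
        exact (Finset.disjoint_left.1 hST) hi (htT l)
      rw [hP'1 i h8]
      exact hPS i hi
    · have h9 : i ∈ Finset.univ.image t := by rw [himg]; exact hi
      obtain ⟨l, -, rfl⟩ := Finset.mem_image.1 h9
      exact ⟨(hT _ hi).1, hP'2 l⟩
  · intro j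
    have h8 := hP'3 j
    have h9 := hPf (j + lam)
    have e : j + lam + Λ = j + (Λ + lam) := by omega
    rw [e] at h9
    omega

/-- all the points of multiplicity at least two, in blocks -/
theorem state_all (hMIB : S_MIB) {K : Type} [Field K] [Infinite K] {g : MvPolynomial (Fin 3) K}
    {P0 : ℕ → Fin 3 → K} {m b : ℕ → ℕ} {d κ : ℕ} (hκ : 1 ≤ κ) (hg : g.IsHomogeneous 3)
    (hg9 : ∀ i < 9, g ∈ Van (P0 i) 1 ∧ g ∉ Van (P0 i) 2) (E0 : Finset ℕ)
    (hE : ∀ i ∈ E0, 9 ≤ i ∧ b i ∣ κ ∧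
      b i ∣ (E0.filter fun l => m l = m i ∧ b l = b i).card)
    (f e : ℕ → ℕ → ℕ)
    (hB : ∀ b M, b ∣ κ → ∃ lam k1, κ * lam = b * f b M ∧ k1 + b * e b M = κ * lam ∧
      BData g P0 m d κ b M lam k1) :
    ∃ Λ k0, κ * Λ = ∑ i ∈ E0, f (b i) (m i) ∧ k0 + ∑ i ∈ E0, e (b i) (m i) = κ * Λ ∧
      State g P0 m d E0 Λ k0 := by
  refine group_induction m b (fun S => ∃ Λ k0, κ * Λ = ∑ i ∈ S, f (b i) (m i) ∧
    k0 + ∑ i ∈ S, e (b i) (m i) = κ * Λ ∧ State g P0 m d S Λ k0) ?_ E0 ?_ ?_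
  · exact ⟨0, 0, by simp, by simp, state_empty g P0 m d⟩
  · rintro S T hST hdisj i hi hl hc ⟨Λ, k0, h1, h2, h3⟩
    have hiE : i ∈ E0 := hST (Finset.mem_union_right _ hi)
    obtain ⟨lam, k1, h4, h5, h6⟩ := hB (b i) (m i) (hE i hiE).2.1
    have e1 : ∑ l ∈ T, f (b l) (m l) = b i * f (b i) (m i) := by
      rw [Finset.sum_congr rfl (fun l hl' => by rw [(hl l hl').1, (hl l hl').2]),
        Finset.sum_const, hc, smul_eq_mul]
    have e2 : ∑ l ∈ T, e (b l) (m l) = b i * e (b i) (m i) := by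
      rw [Finset.sum_congr rfl (fun l hl' => by rw [(hl l hl').1, (hl l hl').2]),
        Finset.sum_const, hc, smul_eq_mul]
    refine ⟨Λ + lam, k0 + k1, ?_, ?_, ?_⟩
    · rw [Finset.sum_union hdisj, e1, mul_add, h1, h4]
    · rw [Finset.sum_union hdisj, e2, mul_add]
      omega
    · exact state_step hMIB hg hg9 h6 h3 hdisj
        (fun l hl' => ⟨(hE l (hST (Finset.mem_union_right _ hl'))).1, (hl l hl').1⟩) hc
  · intro i hi
    exact ⟨Nat.pos_of_dvd_of_pos (hE i hi).2.1 (by omega), (hE i hi).2.2⟩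

end Pool.Agent.Helper97.Tate
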