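import Pool.Agent.Helper97.Tate.Klev

/-!
The main theorem over the field `k((q))` from the goals.
-/

set_option autoImplicit false

noncomputable section

namespace Pool.Agent.Helper97.Tate

open Module

/-- the conclusion over a field of characteristic zero -/
def Up (s : ℕ) (m : ℕ → ℕ) (d N : ℕ) : Prop :=
  ∃ (K : Type) (_ : Field K) (_ : CharZero K) (P : Fin s → Fin 3 → K),
    finrank K (Fm K d ⊓ ⨅ i, Van (P i) (m i) : Submodule K (MvPolynomial (Fin 3) K)) ≤ N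

section

variable {k : Type} [Field k] [CharZero k]

theorem blockA (hCUV : S_CUV) (hTHZ : S_THZ) (hLHY : S_LHY) (hKRA : S_KRA) (hLSS : S_LSS)
    {α β γ : OO k} (hc : IsCub α β γ)
    (w : Fin 9 → kˣ) (hw : Function.Injective w) (m : ℕ → ℕ) (d κ : ℕ) (hκ : 1 ≤ κ)
    (hd : κ + ∑ i ∈ Finset.range 9, m i = 3 * d) (ρ : ℚ) (hρ0 : ρ ≠ 0) (z : kˣ) (E : ℤ)
    (hρ : ∀ j : ℕ, ∏ i : Fin 9, (-((w i : kˣ) : k)) ^ ((m (i : ℕ) : ℤ) - j) =
        (ρ : k) * (z : k) ^ ((κ : ℤ) * (E - 9 * j))) (x y : Fin κ → kˣ)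
    (hgen : ∀ (b : ℕ) (hb : b ≤ κ), Gen z (fun i : Fin b => x (Fin.castLE hb i))
      (fun i : Fin b => y (Fin.castLE hb i)))
    (hx : ∀ (b : ℕ) (x y : Fin b → kˣ), Gen z x y → ∀ (l : Fin b) (i : Fin 9), x l ≠ w i)
    (b M : ℕ) (hb : b ∣ κ) :
    ∃ lam k1, κ * lam = b * ((M + 1).choose 2 - loss (κ / b) M) ∧
      k1 + b * ((M + 1).choose 2 - loss (κ / b) M) = κ * lam ∧
      BData (cubK α β γ) (P0 w) m d κ b M lam k1 := by
  obtain ⟨κ', rfl⟩ := hb
  have hb1 : 1 ≤ b := Nat.pos_of_ne_zero (by rintro rfl; simp at hκ)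
  have hk1 : 1 ≤ κ' := Nat.pos_of_ne_zero (by rintro rfl; simp at hκ)
  have hdiv : b * κ' / b = κ' := Nat.mul_div_cancel_left κ' hb1
  rw [hdiv]
  obtain ⟨⟨P, R, hPR, hPR2⟩, -, -⟩ := hLSS κ' M hk1
  have hble : b ≤ b * κ' := Nat.le_mul_of_pos_right b hk1
  have hg := hgen b hble
  have e1 : κ' * (P * R) = (M + 1).choose 2 - loss κ' M := by omega
  refine ⟨P * R, 0, ?_, ?_, ?_⟩
  · rw [mul_assoc, e1]
  · rw [zero_add, mul_assoc, e1]
  · apply bdata hCUV hTHZ hLHY hc w hw m d (b * κ') hκ hd ρ z E hρ b M (P * R) 0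
      (fun i : Fin b => x (Fin.castLE hble i)) (fun i : Fin b => y (Fin.castLE hble i))
      (fun l i => hx b _ _ hg l i)
    intro j0
    rw [hKRA k b κ' P R M z _ _ ρ E j0 hb1 hk1 hPR hρ0 hg]

theorem blockB (hCUV : S_CUV) (hTHZ : S_THZ) (hLHY : S_LHY) (hKRD : S_KRD) (hLSS : S_LSS)
    {α β γ : OO k} (hc : IsCub α β γ)
    (w : Fin 9 → kˣ) (hw : Function.Injective w) (m : ℕ → ℕ) (d κ : ℕ) (hκ : 1 ≤ κ)
    (hd : κ + ∑ i ∈ Finset.range 9, m i = 3 * d) (ρ : ℚ) (hρ0 : ρ ≠ 0) (z : kˣ) (E : ℤ)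
    (hρ : ∀ j : ℕ, ∏ i : Fin 9, (-((w i : kˣ) : k)) ^ ((m (i : ℕ) : ℤ) - j) =
        (ρ : k) * (z : k) ^ ((κ : ℤ) * (E - 9 * j))) (x y : Fin κ → kˣ)
    (hgen : ∀ (b : ℕ) (hb : b ≤ κ), Gen z (fun i : Fin b => x (Fin.castLE hb i))
      (fun i : Fin b => y (Fin.castLE hb i)))
    (hx : ∀ (b : ℕ) (x y : Fin b → kˣ), Gen z x y → ∀ (l : Fin b) (i : Fin 9), x l ≠ w i)
    (hσ : ∃ σ : k →+* k, σ z = z ∧ (∀ i, σ (x i) = x i * (z : k) ^ (-9 : ℤ)) ∧ ∀ i, σ (y i) = y i)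
    (b M : ℕ) (hb : b ∣ κ) :
    ∃ lam k1, κ * lam = b * ((M + 1).choose 2 + (κ - 1) * loss (κ / b) M) ∧
      k1 + b * (M + 1).choose 2 = κ * lam ∧
      BData (cubK α β γ) (P0 w) m d κ b M lam k1 := by
  obtain ⟨κ', rfl⟩ := hb
  have hb1 : 1 ≤ b := Nat.pos_of_ne_zero (by rintro rfl; simp at hκ)
  have hk1 : 1 ≤ κ' := Nat.pos_of_ne_zero (by rintro rfl; simp at hκ)
  have hdiv : b * κ' / b = κ' := Nat.mul_div_cancel_left κ' hb1
  rw [hdiv]
  obtain ⟨⟨P, R, hPR, hPR2⟩, -, -⟩ := hLSS κ' M hk1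
  have hble : b ≤ b * κ' := Nat.le_mul_of_pos_right b hk1
  have hg := hgen b hble
  obtain ⟨σ, hσ1, hσ2, hσ3⟩ := hσ
  have e1 : b * κ' * (P * R + b * loss κ' M) =
      b * ((M + 1).choose 2 + (b * κ' - 1) * loss κ' M) := by
    obtain ⟨t, ht⟩ : ∃ t, b * κ' = t + 1 := ⟨b * κ' - 1, by omega⟩
    have e2 : b * κ' - 1 = t := by omega
    rw [e2, ← hPR2]
    calc b * κ' * (P * R + b * loss κ' M) = b * (κ' * (P * R) + (b * κ') * loss κ' M) := by ring
      _ = b * (κ' * (P * R) + loss κ' M + t * loss κ' M) := by rw [ht]; ring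
  refine ⟨P * R + b * loss κ' M, b * κ' * (P * R + b * loss κ' M) - b * (M + 1).choose 2,
    e1, ?_, ?_⟩
  · apply Nat.sub_add_cancel
    rw [e1]
    exact Nat.mul_le_mul_left b (Nat.le_add_right _ _)
  · apply bdata hCUV hTHZ hLHY hc w hw m d (b * κ') hκ hd ρ z E hρ b M _ _
      (fun i : Fin b => x (Fin.castLE hble i)) (fun i : Fin b => y (Fin.castLE hble i))
      (fun l i => hx b _ _ hg l i)
    intro j0
    have h1 := hKRD k b κ' P R M (loss κ' M) (P * R + b * loss κ' M) z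
      (fun i : Fin b => x (Fin.castLE hble i)) (fun i : Fin b => y (Fin.castLE hble i))
      ρ E j0 σ hb1 hk1 hPR hPR2 le_rfl hρ0 hg hσ1 (fun i => hσ2 _) (fun i => hσ3 _)
    exact Nat.le_sub_of_add_le h1

end

/-- all the goals used by the assembly -/
structure AllGoals : Prop where
  cuv : S_CUV
  thz : S_THZ
  lhy : S_LHY
  kra : S_KRA
  krd : S_KRD
  lss : S_LSS
  vaa : S_VAA
  vab : S_VAB
  sim : S_SIM
  mib : S_MIB
  gen : S_GEN
  cub : S_CUB
  wpt : S_WPT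
  drp : S_DRP
  bse : S_BSE
  nin : S_NIN
  trk : S_TRK
  cpa : S_CPA
  cpb : S_CPB

/-- the set of the points of multiplicity at least two after the first nine -/
abbrev E2 (s : ℕ) (m : ℕ → ℕ) : Finset ℕ := (Finset.Ico 9 s).filter fun i => 2 ≤ m i

/-- the simple points -/
abbrev F1 (s : ℕ) (m : ℕ → ℕ) : Finset ℕ := (Finset.Ico 9 s).filter fun i => m i = 1

theorem kmain (G : AllGoals) (s : ℕ) (m b : ℕ → ℕ) (d κ : ℕ) (hm : Antitone m)
    (hs : ∀ i, s ≤ i → m i = 0) (hd : m 0 + m 1 + m 2 ≤ d) (hκ : 1 ≤ κ)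
    (hκd : κ + ∑ i ∈ Finset.range 9, m i = 3 * d)
    (hb : ∀ i ∈ E2 s m, b i ∣ κ ∧ b i ∣ ((E2 s m).filter fun l => m l = m i ∧ b l = b i).card) :
    (∃ Λ, κ * Λ = ∑ i ∈ E2 s m, ((m i + 1).choose 2 - loss (κ / b i) (m i)) ∧
      Up s m d (κ * (min (d / 3) ((d - m 0) / 2) + 1 - Λ) - (F1 s m).card)) ∧
    (∃ Λ, κ * Λ = ∑ i ∈ E2 s m, ((m i + 1).choose 2 + (κ - 1) * loss (κ / b i) (m i)) ∧
      (Λ ≤ m 8 → ∀ N : ℕ, (Nat.choose (d + 2) 2 : ℤ) -
        ∑ i ∈ Finset.range 9, (Nat.choose (m i + 1) 2 : ℤ) -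
        ∑ i ∈ E2 s m, (Nat.choose (m i + 1) 2 : ℤ) ≤ (N : ℤ) → Up s m d (N - (F1 s m).card))) := by
  obtain ⟨k, _, _, z, x, y, hxy, hσ, hgen⟩ := G.gen κ
  obtain ⟨α, β, γ, hc⟩ := G.cub k
  obtain ⟨w, hw, hρ, hx⟩ := G.wpt k z κ hκ
  obtain ⟨ρ, hρ0, hρ⟩ := hρ m
  have : CharZero (KK k) := charZero_KK k
  have : Infinite (KK k) := Infinite.of_injective _ (Nat.cast_injective (R := KK k))
  have hg := cub_homog (A := KK k) (algebraMap (OO k) (KK k) α) (algebraMap (OO k) (KK k) β)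
    (algebraMap (OO k) (KK k) γ)
  have hg9 := nine G.cuv G.vab hc w
  have hgE : ∀ i ∈ E2 s m, 9 ≤ i := fun i hi =>
    (Finset.mem_Ico.1 (Finset.mem_filter.1 hi).1).1
  have hE : ∀ i ∈ E2 s m, 9 ≤ i ∧ b i ∣ κ ∧
      b i ∣ ((E2 s m).filter fun l => m l = m i ∧ b l = b i).card := fun i hi =>
    ⟨hgE i hi, hb i hi⟩
  have hm0 : m 0 ≤ d := by omega
  have hfin : ∀ (Λ k0 N : ℕ), State (cubK α β γ) (P0 w) m d (E2 s m) Λ k0 →
      finrank (KK k) (WW (P0 w) m ∅ d Λ) + k0 ≤ N → Up s m d (N - (F1 s m).card) := by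
    intro Λ k0 N hS hN
    obtain ⟨P, hP⟩ := finish G.vaa G.sim hs (N := N - (F1 s m).card) hS (by
      have : N ≤ N - (F1 s m).card + (F1 s m).card := by omega
      exact hN.trans this) (by
      intro P
      have h3 : WW P m ((Finset.Ico 9 s).filter fun i => 2 ≤ m i) d 0 ≤
          MvPolynomial.homogeneousSubmodule (Fin 3) (KK k) d := by
        intro u hu
        have h4 := (Submodule.mem_inf.1 (Submodule.mem_inf.1 hu).1).1
        rw [mem_Fm (by simp)] at h4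
        rw [MvPolynomial.mem_homogeneousSubmodule]
        simpa using h4
      have h5 : FiniteDimensional (KK k) (MvPolynomial.homogeneousSubmodule (Fin 3) (KK k) d) :=
        Module.Finite.iff_fg.2 (MvPolynomial.homogeneousSubmodule_fg (σ := Fin 3) (R := KK k) d)
      exact Submodule.finiteDimensional_of_le h3)
    exact ⟨KK k, inferInstance, inferInstance, P, hP⟩
  constructor
  · obtain ⟨Λ, k0, h1, h2, h3⟩ := state_all G.mib hκ hg hg9 (E2 s m) hE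
      (fun b M => (M + 1).choose 2 - loss (κ / b) M) (fun b M => (M + 1).choose 2 - loss (κ / b) M)
      (fun b M hb => blockA G.cuv G.thz G.lhy G.kra G.lss hc w hw m d κ hκ hκd ρ hρ0 z _ hρ x y
        hgen hx b M hb)
    refine ⟨Λ, h1, ?_⟩
    apply hfin Λ k0 _ h3
    have hLH : LevHyp (cubK α β γ) (P0 w) m d κ (fun l : Fin 0 => ph (l.elim0 : kˣ))
        (fun l => ∏ i, evK (l.elim0 : kˣ) (th (w i)))
        (fun l => ∏ i : Fin 9, evK (l.elim0 : kˣ) (th (w i)) ^ m (i : ℕ))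
        (fun l _ (r : Fin κ) => evK (l.elim0 : kˣ) (Th κ ((r : ℕ) : ℤ) 1)) := by
      have h4 := G.lhy k α β γ hc w hw (P0 w) (fun i => P0_fin w i) m d κ hκ hκd
        (fun j => ∏ i : Fin 9, (-((w i : kˣ) : k)) ^ ((m (i : ℕ) : ℤ) - j)) (fun j => rfl) 0
        (fun l => l.elim0)
      intro j hj
      obtain ⟨a, ha1, -⟩ := h4 j hj
      exact ⟨a, ha1, fun z i => i.elim0⟩
    have h5 := G.bse (KK k) (cubK α β γ) (P0 w) m d κ _ _ _ _ hg hg9 hm0 hLH Λ
    have h6 : k0 = 0 := by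
      have h7 : k0 + ∑ i ∈ E2 s m, ((m i + 1).choose 2 - loss (κ / b i) (m i)) = κ * Λ := h2
      have h8 : κ * Λ = ∑ i ∈ E2 s m, ((m i + 1).choose 2 - loss (κ / b i) (m i)) := h1
      omega
    omega
  · obtain ⟨Λ, k0, h1, h2, h3⟩ := state_all G.mib hκ hg hg9 (E2 s m) hE
      (fun b M => (M + 1).choose 2 + (κ - 1) * loss (κ / b) M) (fun b M => (M + 1).choose 2)
      (fun b M hb => blockB G.cuv G.thz G.lhy G.krd G.lss hc w hw m d κ hκ hκd ρ hρ0 z _ hρ x y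
        hgen hx (by
          obtain ⟨σ, hσ1, hσ2, hσ3⟩ := hσ (-9)
          exact ⟨σ, hσ1, fun i => by rw [hσ2 i], hσ3⟩) b M hb)
    refine ⟨Λ, h1, ?_⟩
    intro hΛ N hN
    apply hfin Λ k0 _ h3
    have h10 : m 1 ≤ m 0 := hm (by norm_num)
    have h21 : m 2 ≤ m 1 := hm (by norm_num)
    have h82 : m 8 ≤ m 2 := hm (by norm_num)
    have hL : 3 * Λ ≤ d := by omega
    have h4 : (finrank (KK k) (WW (P0 w) m ∅ d Λ) : ℤ) ≤
        (Nat.choose (d - 3 * Λ + 2) 2 : ℤ) -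
          ∑ i ∈ Finset.range 9, (Nat.choose (m i - Λ + 1) 2 : ℤ) := by
      rw [WW_level _ _ _ _ hL]
      apply G.nin k α β γ hc w hw (P0 w) (fun i => P0_fin w i) (fun i => m i - Λ) (d - 3 * Λ)
      · intro i j hij
        have := hm hij
        change m j - Λ ≤ m i - Λ
        omega
      · change m 0 - Λ + (m 1 - Λ) + (m 2 - Λ) ≤ d - 3 * Λ
        omega
      · left
        have h5 : ∀ i ∈ Finset.range 9, m i - Λ + Λ = m i := by
          intro i hi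
          have : m 8 ≤ m i := hm (by rw [Finset.mem_range] at hi; omega)
          omega
        have h6 : ∑ i ∈ Finset.range 9, (m i - Λ) + 9 * Λ = ∑ i ∈ Finset.range 9, m i := by
          rw [← Finset.sum_congr rfl h5, Finset.sum_add_distrib]
          simp
        omega
    have h7 : (Nat.choose (d - 3 * Λ + 2) 2 : ℤ) -
          ∑ i ∈ Finset.range 9, (Nat.choose (m i - Λ + 1) 2 : ℤ) + κ * Λ =
        (Nat.choose (d + 2) 2 : ℤ) - ∑ i ∈ Finset.range 9, (Nat.choose (m i + 1) 2 : ℤ) := by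
      have hch : ∀ n : ℕ, 2 * (Nat.choose (n + 1) 2 : ℤ) = (n : ℤ) * (n + 1) := by
        intro n
        have h8 := Nat.triangle_succ n
        rw [← Nat.choose_two_right] at h8
        have h9 : (n + 1).choose 2 * 2 = (n + 1) * n := by
          rw [Nat.choose_two_right, Nat.add_sub_cancel]
          exact Nat.div_mul_cancel (Nat.even_mul_pred_self (n + 1)).two_dvd
        have h10 : (((n + 1).choose 2 : ℕ) : ℤ) * 2 = (n + 1) * n := by exact_mod_cast h9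
        linarith
      obtain ⟨D, hD⟩ : ∃ D, d = D + 3 * Λ := ⟨d - 3 * Λ, by omega⟩
      have e1 : d - 3 * Λ = D := by omega
      rw [e1]
      have hmi : ∀ i ∈ Finset.range 9, 2 * (Nat.choose (m i + 1) 2 : ℤ) =
          2 * (Nat.choose (m i - Λ + 1) 2 : ℤ) + 2 * Λ * (m i - Λ : ℤ) + Λ * Λ + Λ := by
        intro i hi
        have h8 : m 8 ≤ m i := hm (by rw [Finset.mem_range] at hi; omega)
        obtain ⟨t, ht⟩ : ∃ t, m i = t + Λ := ⟨m i - Λ, by omega⟩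
        have e2 : m i - Λ = t := by omega
        rw [hch, hch, e2, ht]
        push_cast
        ring
      have h11 : 2 * ∑ i ∈ Finset.range 9, (Nat.choose (m i + 1) 2 : ℤ) =
          2 * ∑ i ∈ Finset.range 9, (Nat.choose (m i - Λ + 1) 2 : ℤ) +
            2 * Λ * (∑ i ∈ Finset.range 9, (m i : ℤ)) - 9 * (Λ * Λ) + 9 * Λ := by
        rw [Finset.mul_sum, Finset.sum_congr rfl hmi]
        simp only [Finset.sum_add_distrib, ← Finset.mul_sum, Finset.sum_sub_distrib,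
          Finset.sum_const, Finset.card_range, nsmul_eq_mul]
        push_cast
        ring
      have h12 : (κ : ℤ) + ∑ i ∈ Finset.range 9, (m i : ℤ) = 3 * (D + 3 * Λ) := by
        rw [hD] at hκd
        exact_mod_cast hκd
      have h13 := hch (D + 1)
      have h14 := hch (d + 1)
      rw [hD] at h14 ⊢
      push_cast at h13 h14 ⊢
      have h15 : (∑ i ∈ Finset.range 9, (m i : ℤ)) = 3 * (D + 3 * Λ) - κ := by linarith
      rw [h15] at h11
      have h16 : 2 * ((Nat.choose (D + 2) 2 : ℤ) -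
          ∑ i ∈ Finset.range 9, (Nat.choose (m i - Λ + 1) 2 : ℤ) + κ * Λ) =
        2 * ((Nat.choose (D + 3 * Λ + 2) 2 : ℤ) -
          ∑ i ∈ Finset.range 9, (Nat.choose (m i + 1) 2 : ℤ)) := by
        have h17 : (D + 1 + 1 : ℕ) = D + 2 := by ring
        have h18 : (D + 3 * Λ + 1 + 1 : ℕ) = D + 3 * Λ + 2 := by ring
        rw [h17] at h13
        rw [h18] at h14
        nlinarith [h11, h13, h14]
      linarith
    have h8 : (k0 : ℤ) + ∑ i ∈ E2 s m, (Nat.choose (m i + 1) 2 : ℤ) = κ * Λ := by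
      exact_mod_cast h2
    have h9 : (finrank (KK k) (WW (P0 w) m ∅ d Λ) : ℤ) + k0 ≤ N := by linarith
    exact_mod_cast h9

end Pool.Agent.Helper97.Tate
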